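import Pool.Agent.AlphaSix.Recur

/-!
# Double counting with rooted minimal separations
-/

namespace Pool.Agent.AlphaSix

open Finset

set_option linter.unusedSectionVars false

universe u

variable {V : Type u} [Fintype V] [DecidableEq V] {G : SimpleGraph V}

/-- For a root `r` and a vertex `u` there is one set of at most six vertices that contains the
neighbours of `u` in all separators of order six which separate `u` from `r`. -/
theorem exists_root_sep (h : SepGe 6 G) (r u : V) :
    ∃ T0 : Finset V, T0.card ≤ 6 ∧ ∀ A T B : Finset V, Six G A T B → u ∈ A → r ∈ B →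
      ∀ x ∈ T, G.Adj u x → x ∈ T0 := by
  classical
  by_cases hex : ∃ k : ℕ, ∃ A T B : Finset V, Six G A T B ∧ u ∈ A ∧ r ∈ B ∧ A.card = k
  swap
  · refine ⟨∅, by simp, ?_⟩
    intro A T B hs hu hr
    exact absurd ⟨A.card, A, T, B, hs, hu, hr, rfl⟩ hex
  obtain ⟨A0, T0, B0, hs0, hu0, hr0, hA0⟩ := Nat.find_spec hex
  refine ⟨T0, hs0.card.le, ?_⟩
  intro A T B hs hu hr x hx hux
  have hne : (A0 ∩ A).Nonempty := ⟨u, mem_inter.2 ⟨hu0, hu⟩⟩
  have hne' : (B0 ∩ B).Nonempty := ⟨r, mem_inter.2 ⟨hr0, hr⟩⟩
  have g1 := corner_ge h hs0.sepn hs.sepn hne hs0.neB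
  have g2 := corner_ge h hs0.sepn.swap hs.sepn.swap hne' hs0.neA
  have cT := hs.sepn.card_split T0
  have cS := hs0.sepn.card_split T
  rw [hs0.card] at cT
  rw [hs.card] at cS
  rw [inter_comm T A0, inter_comm T T0, inter_comm T B0] at cS
  have h7 : Six G (A0 ∩ A) ((A0 ∩ T ∪ T0 ∩ A) ∪ T0 ∩ T)
      (univ \ (A0 ∩ A ∪ ((A0 ∩ T ∪ T0 ∩ A) ∪ T0 ∩ T))) := by
    refine ⟨corner_sepn hs0.sepn hs.sepn, hne, ?_, ?_⟩
    · refine ⟨r, ?_⟩
      simp only [mem_sdiff, mem_univ, mem_union, mem_inter, true_and]
      have h3 := hs0.sepn.dAB r
      have h4 := hs0.sepn.dTB r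
      tauto
    · rw [corner_card hs0.sepn hs.sepn]
      omega
  have h8 : A0.card ≤ (A0 ∩ A).card := by
    rw [hA0]
    apply Nat.find_min' hex
    refine ⟨_, _, _, h7, mem_inter.2 ⟨hu0, hu⟩, ?_, rfl⟩
    simp only [mem_sdiff, mem_univ, mem_union, mem_inter, true_and]
    have h3 := hs0.sepn.dAB r
    have h4 := hs0.sepn.dTB r
    tauto
  have h9 : A0 ∩ A = A0 := eq_of_subset_of_card_le inter_subset_left h8
  have hxA0 : x ∉ A0 := by
    intro hxA
    rw [← h9] at hxA
    exact hs.sepn.dAT x (mem_inter.1 hxA).2 hx
  rcases hs0.sepn.nbr hu0 hux with h10 | h10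
  · exact absurd h10 hxA0
  · exact h10

variable [DecidableRel G.Adj]

theorem Ctx.charge (c : Ctx G) (hn : 6 ≤ (big G).card) :
    (2 * (big G).card - 11) * om G (big G) ≤ 12 * ((big G).card * (big G).card - (big G).card) := by
  classical
  choose T0 hT0 hch using fun p : V × V => exists_root_sep c.sepGe p.1 p.2
  set n := (big G).card with hndef
  set cc : V → ℕ := fun x => ((big G).offDiag.filter (fun p => x ∈ T0 p)).card with hcc
  -- the total
  have htot : ∑ x, cc x ≤ 6 * (n * n - n) := by
    have h1 : ∑ x, cc x = ∑ p ∈ (big G).offDiag, (T0 p).card := by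
      simp only [hcc, card_filter]
      rw [sum_comm]
      apply sum_congr rfl
      intro p _
      rw [← card_filter]
      congr 1
      ext x
      simp
    rw [h1]
    calc ∑ p ∈ (big G).offDiag, (T0 p).card ≤ ∑ p ∈ (big G).offDiag, 6 :=
          sum_le_sum (fun p _ => hT0 p)
      _ = 6 * (n * n - n) := by
          rw [sum_const, smul_eq_mul, offDiag_card, mul_comm]
  -- all roots outside a separator through `x` and a set of avoided second coordinates
  have hroots : ∀ x, x ∉ big G → ∀ A T B : Finset V, Six G A T B → x ∈ T →
      (∀ w, G.Adj x w → w ∉ T → w ∈ big G) →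
      ∀ r ∈ big G \ T, ∃ u ∈ big G, u ∉ T ∧ u ≠ r ∧ x ∈ T0 (r, u) := by
    intro x hx A T B hs hxT hbig r hr
    rw [mem_sdiff] at hr
    rcases hs.sepn.cover r with h | h | h
    · obtain ⟨u, hu, hxu⟩ := hs.exists_nbr' c.sepGe hxT
      refine ⟨u, hbig u hxu (fun h' => hs.sepn.dTB u h' hu), fun h' => hs.sepn.dTB u h' hu, ?_, ?_⟩
      · rintro rfl
        exact hs.sepn.dAB u h hu
      · exact hch (r, u) B T A hs.swap hu h x hxT hxu.symm
    · exact absurd h hr.2
    · obtain ⟨u, hu, hxu⟩ := hs.exists_nbr c.sepGe hxT
      refine ⟨u, hbig u hxu (hs.sepn.dAT u hu), hs.sepn.dAT u hu, ?_, ?_⟩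
      · rintro rfl
        exact hs.sepn.dAB u hu h
      · exact hch (r, u) A T B hs hu h x hxT hxu.symm
  -- the lower bound
  have hlow : ∀ x, (2 * n - 11) * wt G x ≤ 2 * cc x := by
    intro x
    by_cases hxb : x ∈ big G
    · rw [wt_big hxb]
      omega
    have hwt : wt G x = 2 - (G.neighborFinset x \ big G).card := by
      unfold wt
      rw [if_neg hxb]
    by_cases hge : 2 ≤ (G.neighborFinset x \ big G).card
    · have : wt G x = 0 := by omega
      rw [this]
      omega
    have hh : (G.neighborFinset x \ big G).card = 0 ∨ (G.neighborFinset x \ big G).card = 1 := by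
      omega
    rcases hh with hh | hh
    · have hw2 : wt G x = 2 := by omega
      rw [hw2]
      have hnb : ∀ w, G.Adj x w → w ∈ big G := by
        intro w hw
        by_contra hne
        have : w ∈ G.neighborFinset x \ big G := by
          rw [mem_sdiff, SimpleGraph.mem_neighborFinset]
          exact ⟨hw, hne⟩
        rw [card_eq_zero.1 hh] at this
        exact notMem_empty _ this
      obtain ⟨p, q, T, B, hs, hpq, hxT, hpb, hxp, hcase⟩ :=
        c.iso_structure hxb (card_eq_zero.1 hh)
      have hsplit : cc x = (((big G).offDiag.filter (fun e => x ∈ T0 e)).filter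
          (fun e => e.2 = p)).card + (((big G).offDiag.filter (fun e => x ∈ T0 e)).filter
          (fun e => ¬ e.2 = p)).card := (card_filter_add_card_filter_not _).symm
      -- charges of `p`
      have h1 : (big G \ insert p (insert q T)).card ≤
          (((big G).offDiag.filter (fun e => x ∈ T0 e)).filter (fun e => e.2 = p)).card := by
        apply card_le_card_of_injOn (fun r => (r, p))
        · intro r hr
          have hr := mem_sdiff.1 (mem_coe.1 hr)
          rw [mem_insert, mem_insert, not_or, not_or] at hr
          have hrB : r ∈ B := by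
            rcases hs.sepn.cover r with h | h | h
            · rw [mem_insert, mem_singleton] at h
              rcases h with h | h
              · exact absurd h hr.2.1
              · exact absurd h hr.2.2.1
            · exact absurd h hr.2.2.2
            · exact h
          rw [mem_coe, mem_filter, mem_filter, mem_offDiag]
          exact ⟨⟨⟨hr.1, hpb, hr.2.1⟩, hch (r, p) _ _ _ hs (by simp) hrB x hxT hxp.symm⟩, rfl⟩
        · intro a _ b _ hab
          exact (Prod.mk.inj hab).1
      have h1' : n ≤ (big G \ insert p (insert q T)).card + 6 := by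
        have e1 := card_sdiff_add_card_inter (big G) (insert p (insert q T))
        have e2 : (big G ∩ insert p (insert q T)).card ≤ 6 := by
          rcases hcase with ⟨hqb, hxq, hTb⟩ | ⟨hqb, hqT⟩
          · have e3 : big G ∩ insert p (insert q T) ⊆ {p, q} := by
              intro v hv
              rw [mem_inter, mem_insert, mem_insert] at hv
              rw [mem_insert, mem_singleton]
              rcases hv.2 with h | h | h
              · exact Or.inl h
              · exact Or.inr h
              · exact absurd hv.1 (hTb v h)
            have e4 := (card_le_card e3).trans card_le_two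
            omega
          · have e3 : big G ∩ insert p (insert q T) ⊆ insert p (T.erase x) := by
              intro v hv
              rw [mem_inter, mem_insert, mem_insert] at hv
              rw [mem_insert, mem_erase]
              rcases hv.2 with h | h | h
              · exact Or.inl h
              · rw [h] at hv
                exact absurd hv.1 hqb
              · right
                refine ⟨?_, h⟩
                rintro rfl
                exact hxb hv.1
            have e4 := (card_le_card e3).trans (card_insert_le _ _)
            rw [card_erase_of_mem hxT, hs.card] at e4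
            omega
        omega
      -- charges of the others
      obtain ⟨A', T', B', hs', hxT', hpT'⟩ := c.crit x p hxp
      have h2 : (big G \ T').card ≤
          (((big G).offDiag.filter (fun e => x ∈ T0 e)).filter (fun e => ¬ e.2 = p)).card := by
        have e1 : big G \ T' ⊆ (((big G).offDiag.filter (fun e => x ∈ T0 e)).filter
            (fun e => ¬ e.2 = p)).image Prod.fst := by
          intro r hr
          obtain ⟨u, hub, huT, hur, hxu⟩ :=
            hroots x hxb A' T' B' hs' hxT' (fun w hw _ => hnb w hw) r hr
          rw [mem_image]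
          refine ⟨(r, u), ?_, rfl⟩
          rw [mem_filter, mem_filter, mem_offDiag]
          refine ⟨⟨⟨(mem_sdiff.1 hr).1, hub, hur.symm⟩, hxu⟩, ?_⟩
          rintro rfl
          exact huT hpT'
        exact (card_le_card e1).trans card_image_le
      have h2' : n ≤ (big G \ T').card + 5 := by
        have e1 := card_sdiff_add_card_inter (big G) T'
        have e3 : big G ∩ T' ⊆ T'.erase x := by
          intro v hv
          rw [mem_inter] at hv
          rw [mem_erase]
          refine ⟨?_, hv.2⟩
          rintro rfl
          exact hxb hv.1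
        have e4 := card_le_card e3
        rw [card_erase_of_mem hxT', hs'.card] at e4
        omega
      omega
    · have hw1 : wt G x = 1 := by omega
      rw [hw1]
      obtain ⟨y, hy⟩ := card_eq_one.1 hh
      have hyN : y ∈ G.neighborFinset x \ big G := by
        rw [hy]
        exact mem_singleton_self y
      rw [mem_sdiff, SimpleGraph.mem_neighborFinset] at hyN
      obtain ⟨hxy, hyb⟩ := hyN
      obtain ⟨A, T, B, hs, hxT, hyT⟩ := c.crit x y hxy
      have hbig : ∀ w, G.Adj x w → w ∉ T → w ∈ big G := by
        intro w hw hwT
        by_contra hne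
        have h1 : w ∈ G.neighborFinset x \ big G := by
          rw [mem_sdiff, SimpleGraph.mem_neighborFinset]
          exact ⟨hw, hne⟩
        rw [hy, mem_singleton] at h1
        rw [h1] at hwT
        exact hwT hyT
      have h2 : (big G \ T).card ≤ cc x := by
        have e1 : big G \ T ⊆ ((big G).offDiag.filter (fun e => x ∈ T0 e)).image Prod.fst := by
          intro r hr
          obtain ⟨u, hub, huT, hur, hxu⟩ := hroots x hxb A T B hs hxT hbig r hr
          rw [mem_image]
          refine ⟨(r, u), ?_, rfl⟩
          rw [mem_filter, mem_offDiag]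
          exact ⟨⟨(mem_sdiff.1 hr).1, hub, hur.symm⟩, hxu⟩
        exact (card_le_card e1).trans card_image_le
      have h2' : n ≤ (big G \ T).card + 4 := by
        have e1 := card_sdiff_add_card_inter (big G) T
        have e3 : big G ∩ T ⊆ (T.erase x).erase y := by
          intro v hv
          rw [mem_inter] at hv
          rw [mem_erase, mem_erase]
          refine ⟨?_, ?_, hv.2⟩
          · rintro rfl
            exact hyb hv.1
          · rintro rfl
            exact hxb hv.1
        have e4 := card_le_card e3
        rw [card_erase_of_mem (mem_erase.2 ⟨hxy.ne.symm, hyT⟩), card_erase_of_mem hxT,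
          hs.card] at e4
        omega
      omega
  have hbelow : below G (big G) = univ := by
    ext v
    rw [mem_below]
    simp
  have h1 : om G (big G) = ∑ x, wt G x := by
    unfold om
    rw [hbelow]
  rw [h1, mul_sum]
  calc ∑ x, (2 * n - 11) * wt G x ≤ ∑ x, 2 * cc x := sum_le_sum (fun x _ => hlow x)
    _ = 2 * ∑ x, cc x := by rw [mul_sum]
    _ ≤ 2 * (6 * (n * n - n)) := Nat.mul_le_mul_left _ htot
    _ = 12 * (n * n - n) := by ring

end Pool.Agent.AlphaSix
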