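import Pool.Agent.AlphaSix.Sep

/-!
# Corners of two separations, contractions and deletions
-/

namespace Pool.Agent.AlphaSix

open Finset

set_option linter.unusedSectionVars false

universe u

variable {V : Type u} [Fintype V] [DecidableEq V] {G : SimpleGraph V}

/-- A set `P` with all its outer neighbours in `M` and some vertex outside `P ∪ M`. -/
theorem SepGe.le_card {k : ℕ} (h : SepGe k G) {P M : Finset V} (hP : P.Nonempty)
    (hout : ∃ v, v ∉ P ∧ v ∉ M) (hN : ∀ a ∈ P, ∀ b, G.Adj a b → b ∈ P ∨ b ∈ M) :
    k ≤ M.card := by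
  have h1 : Sepn G P (M \ P) (univ \ (P ∪ M)) := by
    constructor
    · intro v
      simp only [mem_sdiff, mem_univ, mem_union, true_and]
      tauto
    · intro v hv
      simp only [mem_sdiff]
      tauto
    · intro v hv
      simp only [mem_sdiff, mem_univ, mem_union, true_and]
      tauto
    · intro v hv
      simp only [mem_sdiff, mem_univ, mem_union, true_and] at *
      tauto
    · intro a ha b hb hab
      simp only [mem_sdiff, mem_univ, mem_union, true_and] at hb
      exact hb (hN a ha b hab)
  have h2 := h _ _ _ h1 hP (by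
    obtain ⟨v, hv1, hv2⟩ := hout
    exact ⟨v, by simp [hv1, hv2]⟩)
  exact h2.trans (card_le_card sdiff_subset)

/-- The corner `A ∩ C` of two separations is again the side of a separation. -/
theorem corner_sepn {A T B C S D : Finset V} (h1 : Sepn G A T B) (h2 : Sepn G C S D) :
    Sepn G (A ∩ C) ((A ∩ S ∪ T ∩ C) ∪ T ∩ S) (univ \ (A ∩ C ∪ ((A ∩ S ∪ T ∩ C) ∪ T ∩ S))) := by
  constructor
  · intro v
    simp only [mem_sdiff, mem_univ, mem_union, mem_inter, true_and]
    tauto
  · intro v hv
    simp only [mem_union, mem_inter] at *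
    have := h1.dAT v
    have := h2.dAT v
    tauto
  · intro v hv
    simp only [mem_sdiff, mem_univ, mem_union, mem_inter, true_and] at *
    tauto
  · intro v hv
    simp only [mem_sdiff, mem_univ, mem_union, mem_inter, true_and] at *
    tauto
  · intro a ha b hb hab
    simp only [mem_sdiff, mem_univ, mem_union, mem_inter, true_and] at *
    have h3 := h1.nbr ha.1 hab
    have h4 := h2.nbr ha.2 hab
    tauto

theorem corner_card {A T B C S D : Finset V} (h1 : Sepn G A T B) (h2 : Sepn G C S D) :
    ((A ∩ S ∪ T ∩ C) ∪ T ∩ S).card = (A ∩ S).card + (T ∩ C).card + (T ∩ S).card := by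
  rw [card_union_of_disjoint, card_union_of_disjoint]
  · rw [Finset.disjoint_left]
    intro v hv hv'
    simp only [mem_inter] at *
    exact h1.dAT v hv.1 hv'.1
  · rw [Finset.disjoint_left]
    intro v hv hv'
    simp only [mem_inter, mem_union] at *
    have := h1.dAT v
    have := h2.dAT v
    tauto

/-- The middle of a corner separation has at least `k` elements. -/
theorem corner_ge {k : ℕ} (h : SepGe k G) {A T B C S D : Finset V} (h1 : Sepn G A T B)
    (h2 : Sepn G C S D) (hAC : (A ∩ C).Nonempty) (hB : B.Nonempty) :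
    k ≤ (A ∩ S).card + (T ∩ C).card + (T ∩ S).card := by
  rw [← corner_card h1 h2]
  apply h _ _ _ (corner_sepn h1 h2) hAC
  obtain ⟨b, hb⟩ := hB
  refine ⟨b, ?_⟩
  simp only [mem_sdiff, mem_univ, mem_union, mem_inter, true_and]
  have h3 := h1.dAB b
  have h4 := h1.dTB b
  tauto

/-- A separation of order exactly six with both sides nonempty. -/
structure Six (G : SimpleGraph V) (A T B : Finset V) : Prop where
  sepn : Sepn G A T B
  neA : A.Nonempty
  neB : B.Nonempty
  card : T.card = 6

theorem Six.swap {A T B : Finset V} (h : Six G A T B) : Six G B T A :=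
  ⟨h.sepn.swap, h.neB, h.neA, h.card⟩

/-- Every vertex of a minimum separator has a neighbour in each side. -/
theorem Six.exists_nbr (h : SepGe 6 G) {A T B : Finset V} (hs : Six G A T B) {t : V}
    (ht : t ∈ T) : ∃ a ∈ A, G.Adj t a := by
  by_contra hcon
  push Not at hcon
  have h1 : Sepn G A (T.erase t) (insert t B) := by
    constructor
    · intro v
      have := hs.sepn.cover v
      simp only [mem_erase, mem_insert]
      tauto
    · intro v hv
      simp only [mem_erase]
      have := hs.sepn.dAT v hv
      tauto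
    · intro v hv
      simp only [mem_insert, not_or]
      refine ⟨?_, hs.sepn.dAB v hv⟩
      rintro rfl
      exact hs.sepn.dAT _ hv ht
    · intro v hv
      simp only [mem_erase, mem_insert, not_or] at *
      exact ⟨hv.1, hs.sepn.dTB v hv.2⟩
    · intro a ha b hb hab
      rcases mem_insert.1 hb with rfl | hb
      · exact hcon a ha hab.symm
      · exact hs.sepn.noEdge a ha b hb hab
  have h2 := h _ _ _ h1 hs.neA ⟨t, mem_insert_self _ _⟩
  rw [card_erase_of_mem ht, hs.card] at h2
  omega

theorem Six.exists_nbr' (h : SepGe 6 G) {A T B : Finset V} (hs : Six G A T B) {t : V}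
    (ht : t ∈ T) : ∃ b ∈ B, G.Adj t b := hs.swap.exists_nbr h ht

theorem KConnected.mono {k : ℕ} {G H : SimpleGraph V} (h : KConnected k G) (hle : G ≤ H) :
    KConnected k H := by
  refine ⟨h.1, fun S hS => ?_⟩
  exact (h.2 S hS).mono (SimpleGraph.comap_monotone _ hle)

theorem kconnected_mono' {W : Type*} {k : ℕ} {G H : SimpleGraph W} (h : KConnected k G)
    (hle : G ≤ H) : KConnected k H := by
  refine ⟨h.1, fun S hS => ?_⟩
  exact (h.2 S hS).mono (SimpleGraph.comap_monotone _ hle)

/-- In a minimally contraction-critical graph the deletion of an edge destroys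
`k`-connectedness. -/
theorem MinContractionCritical.not_kconnected_delete {k : ℕ} (h : MinContractionCritical k G)
    {v w : V} (hvw : G.Adj v w) : ¬ KConnected k (G.deleteEdges {s(v, w)}) := by
  intro hk
  apply h.2 v w hvw
  refine ⟨hk, fun a b hab hc => ?_⟩
  have hab' : G.Adj a b := (SimpleGraph.deleteEdges_le _) hab
  apply h.1.2 a b hab'
  apply kconnected_mono' hc
  intro x y hxy
  cases x with
  | none => cases y with
    | none => exact hxy
    | some y =>
      rcases hxy with h1 | h1
      · exact Or.inl ((SimpleGraph.deleteEdges_le _) h1)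
      · exact Or.inr ((SimpleGraph.deleteEdges_le _) h1)
  | some x => cases y with
    | none =>
      rcases hxy with h1 | h1
      · exact Or.inl ((SimpleGraph.deleteEdges_le _) h1)
      · exact Or.inr ((SimpleGraph.deleteEdges_le _) h1)
    | some y =>
      have h1 : (G.deleteEdges {s(v, w)}).Adj x.1 y.1 := hxy
      have h2 : G.Adj x.1 y.1 := (SimpleGraph.deleteEdges_le _) h1
      exact h2

/-- The set of vertices of `G` that correspond to a set of vertices of `G / vw`. -/
noncomputable def lift (v w : V) (X : Finset (Option {a : V // a ≠ v ∧ a ≠ w})) : Finset V := by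
  classical
  exact univ.filter (fun a => (∃ h : a ≠ v ∧ a ≠ w, some ⟨a, h⟩ ∈ X) ∨
    ((a = v ∨ a = w) ∧ none ∈ X))

theorem mem_lift {v w : V} {X : Finset (Option {a : V // a ≠ v ∧ a ≠ w})} {a : V} :
    a ∈ lift v w X ↔ (∃ h : a ≠ v ∧ a ≠ w, some ⟨a, h⟩ ∈ X) ∨ ((a = v ∨ a = w) ∧ none ∈ X) := by
  classical
  unfold lift
  simp

theorem card_lift_le (v w : V) (X : Finset (Option {a : V // a ≠ v ∧ a ≠ w})) :
    (lift v w X).card ≤ (X.erase none).card + (if none ∈ X then 2 else 0) := by
  classical
  have h1 : lift v w X ⊆ (X.erase none).image (fun o => o.elim v (fun a => a.1)) ∪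
      (if none ∈ X then {v, w} else ∅) := by
    intro a ha
    rw [mem_lift] at ha
    rw [mem_union]
    rcases ha with ⟨h, h'⟩ | ⟨h, h'⟩
    · left
      rw [mem_image]
      exact ⟨some ⟨a, h⟩, by simp [h'], rfl⟩
    · right
      rw [if_pos h']
      simpa using h
  refine (card_le_card h1).trans ((card_union_le _ _).trans ?_)
  apply Nat.add_le_add card_image_le
  split_ifs
  · exact card_le_two
  · simp

theorem card_option_fintype {v w : V} (hvw : v ≠ w) :
    Fintype.card (Option {a : V // a ≠ v ∧ a ≠ w}) + 1 = Fintype.card V := by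
  classical
  rw [Fintype.card_option, Fintype.card_subtype]
  have h1 : (univ.filter (fun a : V => a ≠ v ∧ a ≠ w)) = (univ.erase v).erase w := by
    ext a
    simp
    tauto
  rw [h1, card_erase_of_mem (by simp [hvw.symm]), card_erase_of_mem (mem_univ _), card_univ]
  have : 2 ≤ Fintype.card V := by
    have := Finset.card_le_univ ({v, w} : Finset V)
    rwa [card_pair hvw] at this
  omega

/-- In a contraction-critical 6-connected graph with at least eight vertices, every edge lies
in a separator with six vertices. -/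
theorem ContractionCritical.exists_six (h : ContractionCritical 6 G)
    (hV : 8 ≤ Fintype.card V) {v w : V} (hvw : G.Adj v w) :
    ∃ A T B : Finset V, Six G A T B ∧ v ∈ T ∧ w ∈ T := by
  classical
  have hsg := h.1.sepGe
  have hc := card_option_fintype hvw.ne
  obtain ⟨A, T, B, hs, hA, hB, hT⟩ :=
    exists_sepn_of_not_kconnected (k := 6) (by omega) (h.2 v w hvw)
  have h1 : Sepn G (lift v w A) (lift v w T) (lift v w B) := by
    constructor
    · intro a
      simp only [mem_lift]
      by_cases ha : a ≠ v ∧ a ≠ w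
      · rcases hs.cover (some ⟨a, ha⟩) with h' | h' | h'
        · exact Or.inl (Or.inl ⟨ha, h'⟩)
        · exact Or.inr (Or.inl (Or.inl ⟨ha, h'⟩))
        · exact Or.inr (Or.inr (Or.inl ⟨ha, h'⟩))
      · have ha' : a = v ∨ a = w := by tauto
        rcases hs.cover none with h' | h' | h'
        · exact Or.inl (Or.inr ⟨ha', h'⟩)
        · exact Or.inr (Or.inl (Or.inr ⟨ha', h'⟩))
        · exact Or.inr (Or.inr (Or.inr ⟨ha', h'⟩))
    · intro a ha ha'
      rw [mem_lift] at ha ha'
      rcases ha with ⟨h1, h2⟩ | ⟨h1, h2⟩ <;> rcases ha' with ⟨h3, h4⟩ | ⟨h3, h4⟩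
      · exact hs.dAT _ h2 h4
      · rcases h3 with h3 | h3
        · exact h1.1 h3
        · exact h1.2 h3
      · rcases h1 with h1 | h1
        · exact h3.1 h1
        · exact h3.2 h1
      · exact hs.dAT _ h2 h4
    · intro a ha ha'
      rw [mem_lift] at ha ha'
      rcases ha with ⟨h1, h2⟩ | ⟨h1, h2⟩ <;> rcases ha' with ⟨h3, h4⟩ | ⟨h3, h4⟩
      · exact hs.dAB _ h2 h4
      · rcases h3 with h3 | h3
        · exact h1.1 h3
        · exact h1.2 h3
      · rcases h1 with h1 | h1
        · exact h3.1 h1
        · exact h3.2 h1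
      · exact hs.dAB _ h2 h4
    · intro a ha ha'
      rw [mem_lift] at ha ha'
      rcases ha with ⟨h1, h2⟩ | ⟨h1, h2⟩ <;> rcases ha' with ⟨h3, h4⟩ | ⟨h3, h4⟩
      · exact hs.dTB _ h2 h4
      · rcases h3 with h3 | h3
        · exact h1.1 h3
        · exact h1.2 h3
      · rcases h1 with h1 | h1
        · exact h3.1 h1
        · exact h3.2 h1
      · exact hs.dTB _ h2 h4
    · intro a ha b hb hab
      rw [mem_lift] at ha hb
      rcases ha with ⟨h1, h2⟩ | ⟨h1, h2⟩ <;> rcases hb with ⟨h3, h4⟩ | ⟨h3, h4⟩
      · exact hs.noEdge _ h2 _ h4 hab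
      · apply hs.noEdge _ h2 _ h4
        show G.Adj v a ∨ G.Adj w a
        rcases h3 with rfl | rfl
        · exact Or.inl hab.symm
        · exact Or.inr hab.symm
      · apply hs.noEdge _ h2 _ h4
        show G.Adj v b ∨ G.Adj w b
        rcases h1 with rfl | rfl
        · exact Or.inl hab
        · exact Or.inr hab
      · exact hs.dAB _ h2 h4
  have hne : ∀ X : Finset (Option {a : V // a ≠ v ∧ a ≠ w}), X.Nonempty →
      (lift v w X).Nonempty := by
    rintro X ⟨o, ho⟩
    cases o with
    | none => exact ⟨v, mem_lift.2 (Or.inr ⟨Or.inl rfl, ho⟩)⟩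
    | some a => exact ⟨a.1, mem_lift.2 (Or.inl ⟨a.2, ho⟩)⟩
  have h2 := hsg _ _ _ h1 (hne A hA) (hne B hB)
  have h3 := card_lift_le v w T
  by_cases hn : none ∈ T
  · rw [if_pos hn, card_erase_of_mem hn] at h3
    have hpos : 0 < T.card := Finset.card_pos.2 ⟨_, hn⟩
    refine ⟨_, _, _, ⟨h1, hne A hA, hne B hB, by omega⟩, ?_, ?_⟩
    · exact mem_lift.2 (Or.inr ⟨Or.inl rfl, hn⟩)
    · exact mem_lift.2 (Or.inr ⟨Or.inr rfl, hn⟩)
  · rw [if_neg hn, erase_eq_of_notMem hn] at h3
    omega

end Pool.Agent.AlphaSix
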