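import Mathlib

/-!
# Minimally contraction-critical 6-connected graphs: definitions

All definitions follow the problem file of `MP_026554_co`.
-/

namespace Pool.Agent.AlphaSix

universe u

variable {V : Type u}

/-- A (finite simple) graph is `k`-connected if it has more than `k` vertices and `G - S` is
connected for every set `S` of fewer than `k` vertices. -/
def KConnected (k : ℕ) (G : SimpleGraph V) : Prop :=
  k < Nat.card V ∧ ∀ S : Finset V, S.card < k → (G.induce ((S : Set V)ᶜ)).Connected

/-- The graph `G / vw`: the vertices `v, w` are replaced by one new vertex `none`, which is
adjacent to the vertices of `(N(v) ∪ N(w)) \ {v, w}`; the other adjacencies are those of `G`. -/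
def contract (G : SimpleGraph V) (v w : V) : SimpleGraph (Option {a : V // a ≠ v ∧ a ≠ w}) where
  Adj
    | none, none => False
    | none, some a => G.Adj v a ∨ G.Adj w a
    | some a, none => G.Adj v a ∨ G.Adj w a
    | some a, some b => G.Adj a b
  symm := ⟨fun a b h => by
    cases a with
    | none => cases b with
      | none => exact h
      | some b => exact h
    | some a => cases b with
      | none => exact h
      | some b => exact h.symm⟩
  loopless := ⟨fun a h => by
    cases a with
    | none => exact h
    | some a => exact G.irrefl h⟩

/-- A contraction-critical `k`-connected graph: it is `k`-connected and contracting any edge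
gives a graph that is not `k`-connected. -/
def ContractionCritical (k : ℕ) (G : SimpleGraph V) : Prop :=
  KConnected k G ∧ ∀ v w : V, G.Adj v w → ¬ KConnected k (contract G v w)

/-- A minimally contraction-critical `k`-connected graph: it is contraction-critical
`k`-connected, and no graph `G - e` with `e` an edge is contraction-critical `k`-connected. -/
def MinContractionCritical (k : ℕ) (G : SimpleGraph V) : Prop :=
  ContractionCritical k G ∧
    ∀ v w : V, G.Adj v w → ¬ ContractionCritical k (G.deleteEdges {s(v, w)})

/-- The average degree `2 |E(G)| / |V(G)|`. -/
noncomputable def avgDegree (G : SimpleGraph V) : ℝ :=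
  2 * (G.edgeSet.ncard : ℝ) / (Nat.card V : ℝ)

/-- `α₆`: the supremum of the average degree over all (finite) minimally contraction-critical
6-connected graphs. -/
noncomputable def alphaSix : ℝ :=
  sSup {x : ℝ | ∃ (V : Type) (_ : Finite V) (G : SimpleGraph V),
    MinContractionCritical 6 G ∧ x = avgDegree G}

end Pool.Agent.AlphaSix
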