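import Pool.Agent.AlphaSix.Corner

/-!
# A family of minimally contraction-critical 6-connected graphs
-/

namespace Pool.Agent.AlphaSix

open Finset

set_option linter.unusedSectionVars false

universe u

section

variable {V : Type u} [Fintype V] [DecidableEq V] {G : SimpleGraph V}

/-- In a 6-connected graph every vertex has at least six neighbours. -/
theorem KConnected.le_card_of_nbr (h : KConnected 6 G) {z : V} {M : Finset V}
    (hM : ∀ b, G.Adj z b → b ∈ M) : 6 ≤ M.card := by
  by_contra hlt
  push Not at hlt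
  have hc := h.1
  rw [Nat.card_eq_fintype_card] at hc
  have h1 := h.sepGe.le_card (P := {z}) (M := M) ⟨z, by simp⟩
    (by
      by_contra hcon
      push Not at hcon
      have h2 : (univ : Finset V) ⊆ insert z M := by
        intro u _
        rw [mem_insert]
        by_cases hu : u = z
        · exact Or.inl hu
        · exact Or.inr (hcon u (by simpa using hu))
      have h3 := (card_le_card h2).trans (card_insert_le _ _)
      rw [card_univ] at h3
      omega)
    (by
      intro a ha b hab
      rw [mem_singleton] at ha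
      subst ha
      exact Or.inr (hM b hab))
  omega

/-- Contracting an edge that lies in a triangle with a vertex of degree six. -/
theorem not_kconnected_contract {v w z : V} (hvw : G.Adj v w) (hvz : G.Adj v z) (hwz : G.Adj w z)
    {N : Finset V} (hN : ∀ b, G.Adj z b → b ∈ N) (hNc : N.card ≤ 6) :
    ¬ KConnected 6 (contract G v w) := by
  classical
  intro h
  have hz : z ≠ v ∧ z ≠ w := ⟨hvz.ne.symm, hwz.ne.symm⟩
  have h1 := h.le_card_of_nbr (z := some ⟨z, hz⟩)
    (M := univ.filter (fun o => (contract G v w).Adj (some ⟨z, hz⟩) o)) (by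
      intro b hb
      rw [mem_filter]
      exact ⟨mem_univ _, hb⟩)
  have h2 : (univ.filter (fun o => (contract G v w).Adj (some ⟨z, hz⟩) o)).card ≤
      (N.erase v).card := by
    apply card_le_card_of_injOn (fun o => o.elim w (fun a => a.1))
    · intro o ho
      rw [mem_coe, mem_filter] at ho
      rw [mem_coe, mem_erase]
      cases o with
      | none => exact ⟨hvw.ne.symm, hN _ hwz.symm⟩
      | some a => exact ⟨a.2.1, hN _ ho.2⟩
    · intro o _ o' _ hoo
      cases o with
      | none => cases o' with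
        | none => rfl
        | some a => exact absurd hoo.symm a.2.2
      | some a => cases o' with
        | none => exact absurd hoo a.2.2
        | some b =>
          have : a.1 = b.1 := hoo
          rw [Subtype.ext this]
  rw [card_erase_of_mem (hN v hvz.symm)] at h2
  omega

/-- Deleting an edge at a vertex of degree six. -/
theorem not_kconnected_delete {v w : V} (hvw : G.Adj v w)
    {N : Finset V} (hN : ∀ b, G.Adj v b → b ∈ N) (hNc : N.card ≤ 6) :
    ¬ KConnected 6 (G.deleteEdges {s(v, w)}) := by
  classical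
  intro h
  have h1 := h.le_card_of_nbr (z := v) (M := N.erase w) (by
    intro b hb
    rw [SimpleGraph.deleteEdges_adj] at hb
    rw [mem_erase]
    refine ⟨?_, hN b hb.1⟩
    rintro rfl
    exact hb.2 rfl)
  rw [card_erase_of_mem (hN w hvw)] at h1
  omega

end

/-- Six hubs `(c, s)` and `m` triangles; the vertex `j` of every triangle is adjacent to the
hubs `(c, s)` with `c ≠ j`. -/
def fam (m : ℕ) : SimpleGraph ((Fin 3 × Bool) ⊕ (Fin m × Fin 3)) where
  Adj
    | Sum.inl _, Sum.inl _ => False
    | Sum.inl p, Sum.inr q => p.1 ≠ q.2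
    | Sum.inr q, Sum.inl p => p.1 ≠ q.2
    | Sum.inr q, Sum.inr q' => q.1 = q'.1 ∧ q.2 ≠ q'.2
  symm := ⟨fun a b h => by
    cases a with
    | inl p => cases b with
      | inl _ => exact h
      | inr _ => exact h
    | inr q => cases b with
      | inl _ => exact h
      | inr _ => exact ⟨h.1.symm, h.2.symm⟩⟩
  loopless := ⟨fun a h => by
    cases a with
    | inl _ => exact h
    | inr _ => exact h.2 rfl⟩

theorem fam_ll {m : ℕ} {p p' : Fin 3 × Bool} : (fam m).Adj (Sum.inl p) (Sum.inl p') ↔ False :=
  Iff.rfl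
theorem fam_lr {m : ℕ} {p : Fin 3 × Bool} {q : Fin m × Fin 3} :
    (fam m).Adj (Sum.inl p) (Sum.inr q) ↔ p.1 ≠ q.2 := Iff.rfl
theorem fam_rl {m : ℕ} {p : Fin 3 × Bool} {q : Fin m × Fin 3} :
    (fam m).Adj (Sum.inr q) (Sum.inl p) ↔ p.1 ≠ q.2 := Iff.rfl
theorem fam_rr {m : ℕ} {q q' : Fin m × Fin 3} :
    (fam m).Adj (Sum.inr q) (Sum.inr q') ↔ q.1 = q'.1 ∧ q.2 ≠ q'.2 := Iff.rfl

instance (m : ℕ) : DecidableRel (fam m).Adj := fun a b => by
  cases a with
  | inl p => cases b with
    | inl _ => rw [fam_ll]; infer_instance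
    | inr _ => rw [fam_lr]; infer_instance
  | inr q => cases b with
    | inl _ => rw [fam_rl]; infer_instance
    | inr _ => rw [fam_rr]; infer_instance

theorem fam_nbr_inr {m : ℕ} (q : Fin m × Fin 3) : (fam m).neighborFinset (Sum.inr q) =
    (univ.filter (fun p : Fin 3 × Bool => p.1 ≠ q.2)).map Function.Embedding.inl ∪
    ((univ.filter (fun j : Fin 3 => q.2 ≠ j)).image (fun j => Sum.inr (q.1, j))) := by
  ext b
  rw [SimpleGraph.mem_neighborFinset, mem_union, mem_map, mem_image]
  cases b with
  | inl p =>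
    rw [fam_rl]
    simp
  | inr q' =>
    rw [fam_rr]
    simp only [mem_filter, mem_univ, true_and, Function.Embedding.inl_apply, reduceCtorEq,
      and_false, exists_false, false_or, Sum.inr.injEq]
    constructor
    · rintro ⟨h1, h2⟩
      exact ⟨q'.2, h2, by rw [h1]⟩
    · rintro ⟨j, h1, rfl⟩
      exact ⟨rfl, h1⟩

theorem fam_degree_inr {m : ℕ} (q : Fin m × Fin 3) : (fam m).degree (Sum.inr q) = 6 := by
  rw [← SimpleGraph.card_neighborFinset_eq_degree, fam_nbr_inr, card_union_of_disjoint]
  · rw [card_map, card_image_of_injective]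
    · have h1 : ∀ j : Fin 3, (univ.filter (fun p : Fin 3 × Bool => p.1 ≠ j)).card +
          (univ.filter (fun j' : Fin 3 => j ≠ j')).card = 6 := by decide
      exact h1 q.2
    · intro a b hab
      have := Sum.inr.inj hab
      exact (Prod.mk.inj this).2
  · rw [Finset.disjoint_left]
    intro b hb hb'
    rw [mem_map] at hb
    rw [mem_image] at hb'
    obtain ⟨p, _, rfl⟩ := hb
    obtain ⟨j, _, hj⟩ := hb'
    cases hj

theorem fam_degree_inl {m : ℕ} (p : Fin 3 × Bool) : (fam m).degree (Sum.inl p) = m * 2 := by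
  have h1 : (fam m).neighborFinset (Sum.inl p) =
      ((univ : Finset (Fin m)) ×ˢ (univ.filter (fun j : Fin 3 => p.1 ≠ j))).map
        Function.Embedding.inr := by
    ext b
    rw [SimpleGraph.mem_neighborFinset, mem_map]
    cases b with
    | inl p' =>
      rw [fam_ll]
      simp
    | inr q' =>
      rw [fam_lr]
      simp
  rw [← SimpleGraph.card_neighborFinset_eq_degree, h1, card_map, card_product, card_univ,
    Fintype.card_fin]
  have h2 : ∀ j : Fin 3, (univ.filter (fun j' : Fin 3 => j ≠ j')).card = 2 := by decide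
  rw [h2]

theorem fam_sum_degree (m : ℕ) : ∑ v, (fam m).degree v = 30 * m := by
  rw [Fintype.sum_sum_type]
  simp only [fam_degree_inl, fam_degree_inr, sum_const, card_univ, Fintype.card_prod,
    Fintype.card_fin, Fintype.card_bool, smul_eq_mul]
  ring

theorem fam_card (m : ℕ) : Fintype.card ((Fin 3 × Bool) ⊕ (Fin m × Fin 3)) = 3 * m + 6 := by
  simp only [Fintype.card_sum, Fintype.card_prod, Fintype.card_fin, Fintype.card_bool]
  ring

theorem fam_sepGe {m : ℕ} (hm : 6 ≤ m) : SepGe 6 (fam m) := by
  classical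
  -- one side contains no hub
  have key : ∀ A T B : Finset ((Fin 3 × Bool) ⊕ (Fin m × Fin 3)), Sepn (fam m) A T B →
      A.Nonempty → T.card < 6 → (∃ i : Fin m, ∀ j : Fin 3, Sum.inr (i, j) ∈ B) → False := by
    rintro A T B hs ⟨a, ha⟩ hT ⟨i, hi⟩
    -- no hub in `A`
    have hhub : ∀ p : Fin 3 × Bool, Sum.inl p ∉ A := by
      intro p hp
      have h1 : ∀ c : Fin 3, ∃ j : Fin 3, c ≠ j := by decide
      obtain ⟨j, hj⟩ := h1 p.1
      exact hs.noEdge _ hp _ (hi j) (fam_lr.2 hj)
    cases a with
    | inl p => exact hhub p ha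
    | inr q =>
      -- all hub neighbours of `q` are in `T`
      have h1 : ∀ p : Fin 3 × Bool, p.1 ≠ q.2 → Sum.inl p ∈ T := by
        intro p hp
        rcases hs.nbr ha (fam_rl.2 hp) with h | h
        · exact absurd h (hhub p)
        · exact h
      by_cases h2 : ∃ j : Fin 3, j ≠ q.2 ∧ Sum.inr (q.1, j) ∈ A
      · obtain ⟨j, hj, hjA⟩ := h2
        have h3 : ∀ p : Fin 3 × Bool, Sum.inl p ∈ T := by
          intro p
          by_cases hp : p.1 = q.2
          · rcases hs.nbr hjA (fam_rl.2 (show p.1 ≠ (q.1, j).2 by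
              rw [hp]; exact hj.symm)) with h | h
            · exact absurd h (hhub p)
            · exact h
          · exact h1 p hp
        have h4 : (univ : Finset (Fin 3 × Bool)).map Function.Embedding.inl ⊆ T := by
          intro b hb
          rw [mem_map] at hb
          obtain ⟨p, _, rfl⟩ := hb
          exact h3 p
        have h5 := card_le_card h4
        rw [card_map, card_univ, Fintype.card_prod, Fintype.card_fin, Fintype.card_bool] at h5
        omega
      · push Not at h2
        have h4 : (fam m).neighborFinset (Sum.inr q) ⊆ T := by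
          intro b hb
          rw [SimpleGraph.mem_neighborFinset] at hb
          rcases hs.nbr ha hb with h | h
          · exfalso
            cases b with
            | inl p => exact hhub p h
            | inr q' =>
              rw [fam_rr] at hb
              apply h2 q'.2 hb.2.symm
              rw [hb.1]
              exact h
          · exact h
        have h5 := card_le_card h4
        rw [SimpleGraph.card_neighborFinset_eq_degree, fam_degree_inr] at h5
        omega
  intro A T B hs hA hB
  by_contra hlt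
  push Not at hlt
  -- an untouched triangle
  have hun : ∃ i : Fin m, ∀ j : Fin 3, Sum.inr (i, j) ∉ T := by
    by_contra hcon
    push Not at hcon
    choose f hf using hcon
    have h1 : m ≤ T.card := by
      have h2 := card_le_card_of_injOn (s := (univ : Finset (Fin m))) (t := T)
        (fun i => Sum.inr (i, f i)) (fun i _ => hf i) (by
          intro a _ b _ hab
          have := Sum.inr.inj hab
          exact (Prod.mk.inj this).1)
      rwa [card_univ, Fintype.card_fin] at h2
    omega
  obtain ⟨i, hi⟩ := hun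
  rcases hs.cover (Sum.inr (i, 0)) with h | h | h
  · apply key B T A hs.swap hB hlt
    refine ⟨i, fun j => ?_⟩
    by_cases hj : j = 0
    · rw [hj]; exact h
    · rcases hs.nbr h (fam_rr.2 (show (i, (0 : Fin 3)).1 = (i, j).1 ∧
        (i, (0 : Fin 3)).2 ≠ (i, j).2 from ⟨rfl, Ne.symm hj⟩)) with h' | h'
      · exact h'
      · exact absurd h' (hi j)
  · exact absurd h (hi 0)
  · apply key A T B hs hA hlt
    refine ⟨i, fun j => ?_⟩
    by_cases hj : j = 0
    · rw [hj]; exact h
    · rcases hs.swap.nbr h (fam_rr.2 (show (i, (0 : Fin 3)).1 = (i, j).1 ∧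
        (i, (0 : Fin 3)).2 ≠ (i, j).2 from ⟨rfl, Ne.symm hj⟩)) with h' | h'
      · exact h'
      · exact absurd h' (hi j)

theorem fam_kconnected {m : ℕ} (hm : 6 ≤ m) : KConnected 6 (fam m) :=
  kconnected_of_sepGe (by rw [fam_card]; omega) (fam_sepGe hm)

theorem fam_contract {m : ℕ} {v w : (Fin 3 × Bool) ⊕ (Fin m × Fin 3)} (h : (fam m).Adj v w) :
    ¬ KConnected 6 (contract (fam m) v w) := by
  have h3 : ∀ a b : Fin 3, ∃ c : Fin 3, c ≠ a ∧ c ≠ b := by decide
  -- the third vertex
  have key : ∃ q : Fin m × Fin 3, (fam m).Adj v (Sum.inr q) ∧ (fam m).Adj w (Sum.inr q) := by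
    cases v with
    | inl p => cases w with
      | inl p' => exact absurd h (by rw [fam_ll]; exact id)
      | inr q =>
        obtain ⟨c, hc1, hc2⟩ := h3 p.1 q.2
        exact ⟨(q.1, c), fam_lr.2 hc1.symm, fam_rr.2 ⟨rfl, hc2.symm⟩⟩
    | inr q => cases w with
      | inl p =>
        obtain ⟨c, hc1, hc2⟩ := h3 p.1 q.2
        exact ⟨(q.1, c), fam_rr.2 ⟨rfl, hc2.symm⟩, fam_lr.2 hc1.symm⟩
      | inr q' =>
        rw [fam_rr] at h
        obtain ⟨c, hc1, hc2⟩ := h3 q.2 q'.2
        exact ⟨(q.1, c), fam_rr.2 ⟨rfl, hc1.symm⟩, fam_rr.2 ⟨h.1.symm, hc2.symm⟩⟩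
  obtain ⟨q, hq1, hq2⟩ := key
  refine not_kconnected_contract h hq1 hq2 (N := (fam m).neighborFinset (Sum.inr q))
    (fun b hb => by rwa [SimpleGraph.mem_neighborFinset]) ?_
  rw [SimpleGraph.card_neighborFinset_eq_degree, fam_degree_inr]

theorem fam_delete {m : ℕ} {v w : (Fin 3 × Bool) ⊕ (Fin m × Fin 3)} (h : (fam m).Adj v w) :
    ¬ KConnected 6 ((fam m).deleteEdges {s(v, w)}) := by
  cases v with
  | inl p => cases w with
    | inl p' => exact absurd h (by rw [fam_ll]; exact id)
    | inr q =>
      rw [Sym2.eq_swap]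
      refine not_kconnected_delete h.symm (N := (fam m).neighborFinset (Sum.inr q))
        (fun b hb => by rwa [SimpleGraph.mem_neighborFinset]) ?_
      rw [SimpleGraph.card_neighborFinset_eq_degree, fam_degree_inr]
  | inr q =>
    refine not_kconnected_delete h (N := (fam m).neighborFinset (Sum.inr q))
      (fun b hb => by rwa [SimpleGraph.mem_neighborFinset]) ?_
    rw [SimpleGraph.card_neighborFinset_eq_degree, fam_degree_inr]

theorem fam_min {m : ℕ} (hm : 6 ≤ m) : MinContractionCritical 6 (fam m) :=
  ⟨⟨fam_kconnected hm, fun _ _ h => fam_contract h⟩, fun _ _ h hc => fam_delete h hc.1⟩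

theorem fam_avg (m : ℕ) : avgDegree (fam m) = 10 * m / (m + 2) := by
  have h1 := (fam m).sum_degrees_eq_twice_card_edges
  rw [fam_sum_degree] at h1
  have h2 : (fam m).edgeSet.ncard = (fam m).edgeFinset.card := by
    rw [← SimpleGraph.coe_edgeFinset, Set.ncard_coe_finset]
  unfold avgDegree
  rw [h2, Nat.card_eq_fintype_card, fam_card]
  have h3 : (2 : ℝ) * ((fam m).edgeFinset.card : ℝ) = 30 * m := by
    exact_mod_cast h1.symm
  rw [h3]
  push_cast
  have h4 : (m : ℝ) + 2 ≠ 0 := by positivity
  have h5 : 3 * (m : ℝ) + 6 ≠ 0 := by positivity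
  rw [div_eq_div_iff h5 h4]
  ring

theorem exists_fam {ε : ℝ} (hε : 0 < ε) :
    ∃ m : ℕ, MinContractionCritical 6 (fam m) ∧ 10 - ε < avgDegree (fam m) := by
  obtain ⟨m, hm⟩ := exists_nat_gt (20 / ε)
  refine ⟨m + 6, fam_min (by omega), ?_⟩
  rw [fam_avg, lt_div_iff₀ (by positivity)]
  rw [div_lt_iff₀ hε] at hm
  push_cast
  nlinarith [hm, hε]

end Pool.Agent.AlphaSix
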