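import Pool.Agent.AlphaSix.Corner

/-!
# The vertices of large degree in a minimally 6-connected graph induce a forest (Mader)
-/

namespace Pool.Agent.AlphaSix

open Finset

set_option linter.unusedSectionVars false

universe u

variable {V : Type u} [Fintype V] [DecidableEq V] {G : SimpleGraph V}

/-- A separation of `G - xy` of order five with `x` and `y` on different sides. -/
structure MSep (G : SimpleGraph V) (x y : V) (A S B : Finset V) : Prop where
  cover : ∀ v, v ∈ A ∨ v ∈ S ∨ v ∈ B
  dAS : ∀ v, v ∈ A → v ∉ S
  dAB : ∀ v, v ∈ A → v ∉ B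
  dSB : ∀ v, v ∈ S → v ∉ B
  edge : ∀ a ∈ A, ∀ b ∈ B, G.Adj a b → a = x ∧ b = y
  hx : x ∈ A
  hy : y ∈ B
  card : S.card = 5

theorem MSep.swap {x y : V} {A S B : Finset V} (h : MSep G x y A S B) : MSep G y x B S A where
  cover v := by rcases h.cover v with h | h | h <;> tauto
  dAS v hv hS := h.dSB v hS hv
  dAB v hv hA := h.dAB v hA hv
  dSB v hS hA := h.dAS v hA hS
  edge a ha b hb hab := by
    have := h.edge b hb a ha hab.symm
    exact ⟨this.2, this.1⟩
  hx := h.hy
  hy := h.hx
  card := h.card

theorem MSep.card_split {x y : V} {A S B : Finset V} (h : MSep G x y A S B) (X : Finset V) :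
    X.card = (X ∩ A).card + (X ∩ S).card + (X ∩ B).card := by
  have h' : Sepn (⊥ : SimpleGraph V) A S B :=
    ⟨h.cover, h.dAS, h.dAB, h.dSB, fun a _ b _ hab => hab⟩
  exact h'.card_split X

theorem exists_msep (h : SepGe 6 G) (hV : 8 ≤ Fintype.card V) {x y : V} (hxy : G.Adj x y)
    (hk : ¬ KConnected 6 (G.deleteEdges {s(x, y)})) :
    ∃ A S B : Finset V, MSep G x y A S B := by
  obtain ⟨A, S, B, hs, hA, hB, hS⟩ := exists_sepn_of_not_kconnected (k := 6) (by omega) hk
  have key : ∀ a ∈ A, ∀ b ∈ B, G.Adj a b → s(a, b) = s(x, y) := by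
    intro a ha b hb hab
    by_contra hne
    apply hs.noEdge a ha b hb
    rw [SimpleGraph.deleteEdges_adj]
    exact ⟨hab, by simpa using hne⟩
  have hex : ∃ a ∈ A, ∃ b ∈ B, G.Adj a b := by
    by_contra hcon
    push Not at hcon
    have h1 : Sepn G A S B := ⟨hs.cover, hs.dAT, hs.dAB, hs.dTB, hcon⟩
    have := h _ _ _ h1 hA hB
    omega
  -- the symmetric statement
  have main : ∀ A S B : Finset V, Sepn (G.deleteEdges {s(x, y)}) A S B → S.card < 6 →
      (∀ a ∈ A, ∀ b ∈ B, G.Adj a b → s(a, b) = s(x, y)) → x ∈ A → y ∈ B →
      MSep G x y A S B := by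
    intro A S B hs hS key hx hy
    have hedge : ∀ a ∈ A, ∀ b ∈ B, G.Adj a b → a = x ∧ b = y := by
      intro a ha b hb hab
      have h1 := key a ha b hb hab
      rw [Sym2.eq_iff] at h1
      rcases h1 with h1 | ⟨h1, h2⟩
      · exact h1
      · subst h1
        exact absurd hy (hs.dAB _ ha)
    refine ⟨hs.cover, hs.dAT, hs.dAB, hs.dTB, hedge, hx, hy, ?_⟩
    have hsplit := hs.card_split univ
    rw [univ_inter, univ_inter, univ_inter, card_univ] at hsplit
    by_cases hA1 : (A.erase x).Nonempty
    · have h2 := h.le_card (P := A.erase x) (M := insert x S) hA1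
        ⟨y, by
          intro h'
          exact hs.dAB _ (mem_of_mem_erase h') hy, by
          rw [mem_insert, not_or]
          exact ⟨hxy.ne.symm, fun h' => hs.dTB _ h' hy⟩⟩
        (by
          intro a ha b hab
          rw [mem_erase] at ha
          by_cases hbx : b = x
          · right
            rw [hbx]
            exact mem_insert_self _ _
          · rcases hs.cover b with hb | hb | hb
            · left
              exact mem_erase.2 ⟨hbx, hb⟩
            · right
              exact mem_insert_of_mem hb
            · exact absurd (hedge a ha.2 b hb hab).1 ha.1)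
      have := card_insert_le x S
      omega
    · have hA2 : A.card ≤ 1 := by
        rw [not_nonempty_iff_eq_empty] at hA1
        have := card_erase_of_mem hx
        rw [hA1, card_empty] at this
        omega
      have hB1 : (B.erase y).Nonempty := by
        rw [← card_pos, card_erase_of_mem hy]
        omega
      have h2 := h.le_card (P := B.erase y) (M := insert y S) hB1
        ⟨x, by
          intro h'
          exact hs.dAB _ hx (mem_of_mem_erase h'), by
          rw [mem_insert, not_or]
          exact ⟨hxy.ne, fun h' => hs.dAT _ hx h'⟩⟩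
        (by
          intro a ha b hab
          rw [mem_erase] at ha
          by_cases hby : b = y
          · right
            rw [hby]
            exact mem_insert_self _ _
          · rcases hs.cover b with hb | hb | hb
            · exact absurd (hedge b hb a ha.2 hab.symm).2 ha.1
            · right
              exact mem_insert_of_mem hb
            · left
              exact mem_erase.2 ⟨hby, hb⟩)
      have := card_insert_le y S
      omega
  obtain ⟨a, ha, b, hb, hab⟩ := hex
  have h1 := key a ha b hb hab
  rw [Sym2.eq_iff] at h1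
  rcases h1 with ⟨rfl, rfl⟩ | ⟨rfl, rfl⟩
  · exact ⟨A, S, B, main A S B hs hS key ha hb⟩
  · refine ⟨B, S, A, main B S A hs.swap hS ?_ hb ha⟩
    intro c hc d hd hcd
    rw [Sym2.eq_swap]
    exact key d hd c hc hcd.symm

/-- Mader's lemma: at a vertex of degree more than six, going on along an edge `xz` the far side
is smaller than the side of `x` for the edge `xy`. -/
theorem mader (h : SepGe 6 G) [DecidableRel G.Adj] {x y z : V} {A S B A' S' B' : Finset V}
    (h1 : MSep G x y A S B) (h2 : MSep G x z A' S' B') (hyz : y ≠ z) (hxz : G.Adj x z)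
    (hxy : G.Adj x y) (hdeg : 7 ≤ G.degree x) : B'.card < A.card := by
  by_contra hlt
  push Not at hlt
  have hzB : z ∉ B := by
    intro hz
    exact hyz (h1.edge x h1.hx z hz hxz).2.symm
  have hyB' : y ∉ B' := by
    intro hy
    exact hyz (h2.edge x h2.hx y hy hxy).2
  have cS := h2.card_split S
  have cS' := h1.card_split S'
  have cA := h2.card_split A
  have cB' := h1.card_split B'
  rw [h1.card] at cS
  rw [h2.card] at cS'
  rw [inter_comm S' A, inter_comm S' S, inter_comm S' B] at cS'
  rw [inter_comm B' A, inter_comm B' S, inter_comm B' B] at cB'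
  have hx11 : x ∈ A ∩ A' := mem_inter.2 ⟨h1.hx, h2.hx⟩
  have hx11c : 0 < (A ∩ A').card := card_pos.2 ⟨x, hx11⟩
  -- the corner of `x` has small boundary
  have hsmall : (S ∩ A').card + (S ∩ S').card + (A ∩ S').card ≤ 4 := by
    by_cases hBB : (B ∩ B').Nonempty
    · have h3 := h.le_card (P := B ∩ B') (M := (S ∩ B' ∪ S ∩ S') ∪ B ∩ S') hBB
        ⟨x, by
          intro h'
          exact h1.dAB _ h1.hx (mem_inter.1 h').1, by
          simp only [mem_union, mem_inter, not_or, not_and]
          exact ⟨⟨fun h' => absurd h' (h1.dAS _ h1.hx), fun h' => absurd h' (h1.dAS _ h1.hx)⟩,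
            fun h' => absurd h' (h1.dAB _ h1.hx)⟩⟩
        (by
          intro a ha b hab
          rw [mem_inter] at ha
          have e1 : b ∉ A := by
            intro hb
            have h4 := h1.edge b hb a ha.1 hab.symm
            rw [h4.2] at ha
            exact hyB' ha.2
          have e2 : b ∉ A' := by
            intro hb
            have h4 := h2.edge b hb a ha.2 hab.symm
            rw [h4.2] at ha
            exact hzB ha.1
          have e3 := h1.cover b
          have e4 := h2.cover b
          simp only [mem_union, mem_inter]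
          tauto)
      have h4 : ((S ∩ B' ∪ S ∩ S') ∪ B ∩ S').card ≤ (S ∩ B').card + (S ∩ S').card +
          (B ∩ S').card :=
        (card_union_le _ _).trans (Nat.add_le_add_right (card_union_le _ _) _)
      omega
    · rw [not_nonempty_iff_eq_empty] at hBB
      rw [hBB, card_empty] at cB'
      omega
  by_cases hP : ((A ∩ A').erase x).Nonempty
  · have h3 := h.le_card (P := (A ∩ A').erase x)
      (M := insert x ((S ∩ A' ∪ S ∩ S') ∪ A ∩ S')) hP
      ⟨y, by
        intro h'
        exact h1.dAB _ (mem_inter.1 (mem_of_mem_erase h')).1 h1.hy, by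
        simp only [mem_insert, mem_union, mem_inter, not_or, not_and]
        exact ⟨hxy.ne.symm, ⟨fun h' => absurd h1.hy (h1.dSB _ h'),
          fun h' => absurd h1.hy (h1.dSB _ h')⟩, fun h' => absurd h1.hy (h1.dAB _ h')⟩⟩
      (by
        intro a ha b hab
        rw [mem_erase, mem_inter] at ha
        have e1 : b ∉ B := fun hb => ha.1 (h1.edge a ha.2.1 b hb hab).1
        have e2 : b ∉ B' := fun hb => ha.1 (h2.edge a ha.2.2 b hb hab).1
        have e3 := h1.cover b
        have e4 := h2.cover b
        simp only [mem_union, mem_inter, mem_erase, mem_insert]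
        tauto)
    have h4 : (insert x ((S ∩ A' ∪ S ∩ S') ∪ A ∩ S')).card ≤ (S ∩ A').card + (S ∩ S').card +
        (A ∩ S').card + 1 :=
      (card_insert_le _ _).trans (Nat.add_le_add_right
        ((card_union_le _ _).trans (Nat.add_le_add_right (card_union_le _ _) _)) _)
    omega
  · have hxA : ∀ v, v ∈ A ∩ A' → v = x := by
      intro v hv
      by_contra hne
      exact hP ⟨v, mem_erase.2 ⟨hne, hv⟩⟩
    have h3 : G.neighborFinset x ⊆ insert y (insert z ((S ∩ A' ∪ S ∩ S') ∪ A ∩ S')) := by
      intro b hb
      rw [SimpleGraph.mem_neighborFinset] at hb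
      have e1 : b ∈ B → b = y := fun hb' => (h1.edge x h1.hx b hb' hb).2
      have e2 : b ∈ B' → b = z := fun hb' => (h2.edge x h2.hx b hb' hb).2
      have e3 := h1.cover b
      have e4 := h2.cover b
      have e5 : ¬ (b ∈ A ∧ b ∈ A') := fun h' => hb.ne (hxA b (mem_inter.2 h')).symm
      simp only [mem_union, mem_inter, mem_insert]
      tauto
    have h4 := card_le_card h3
    rw [SimpleGraph.card_neighborFinset_eq_degree] at h4
    have h5 : (insert y (insert z ((S ∩ A' ∪ S ∩ S') ∪ A ∩ S'))).card ≤
        (S ∩ A').card + (S ∩ S').card + (A ∩ S').card + 2 :=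
      (card_insert_le _ _).trans (Nat.add_le_add_right ((card_insert_le _ _).trans
        (Nat.add_le_add_right ((card_union_le _ _).trans
          (Nat.add_le_add_right (card_union_le _ _) _)) _)) _)
    omega

end Pool.Agent.AlphaSix
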