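import Pool.Agent.AlphaSix.Forest

/-!
# Counting edges between vertices of large degree
-/

namespace Pool.Agent.AlphaSix

open Finset

set_option linter.unusedSectionVars false

universe u

variable {V : Type u} [Fintype V] [DecidableEq V] {G : SimpleGraph V} [DecidableRel G.Adj]

theorem exists_leaf (h : SepGe 6 G)
    (hM : ∀ x y, G.Adj x y → ∃ A S B : Finset V, MSep G x y A S B)
    {X : Finset V} (hX : X.Nonempty) (hdeg : ∀ x ∈ X, 7 ≤ G.degree x) :
    ∃ x ∈ X, (G.neighborFinset x ∩ X).card ≤ 1 := by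
  by_cases hE : ∃ k : ℕ, ∃ x ∈ X, ∃ y ∈ X, G.Adj x y ∧ ∃ A S B : Finset V,
      MSep G x y A S B ∧ A.card = k
  · classical
    obtain ⟨x, hx, y, hy, hxy, A, S, B, hm, hA⟩ := Nat.find_spec hE
    refine ⟨x, hx, ?_⟩
    have key : ∀ z ∈ G.neighborFinset x ∩ X, z = y := by
      intro z hz
      rw [mem_inter, SimpleGraph.mem_neighborFinset] at hz
      by_contra hne
      obtain ⟨A', S', B', hm'⟩ := hM x z hz.1
      have h1 := mader h hm hm' (Ne.symm hne) hz.1 hxy (hdeg x hx)
      rw [hA] at h1
      exact Nat.find_min hE h1 ⟨z, hz.2, x, hx, hz.1.symm, B', S', A', hm'.swap, rfl⟩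
    rw [card_le_one]
    intro a ha b hb
    rw [key a ha, key b hb]
  · obtain ⟨x, hx⟩ := hX
    refine ⟨x, hx, ?_⟩
    have : G.neighborFinset x ∩ X = ∅ := by
      rw [eq_empty_iff_forall_notMem]
      intro z hz
      rw [mem_inter, SimpleGraph.mem_neighborFinset] at hz
      obtain ⟨A, S, B, hm⟩ := hM x z hz.1
      exact hE ⟨A.card, x, hx, z, hz.2, hz.1, A, S, B, hm, rfl⟩
    rw [this]
    simp

/-- Twice the number of edges inside `X`. -/
def inner (G : SimpleGraph V) [DecidableRel G.Adj] (X : Finset V) : ℕ :=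
  ∑ x ∈ X, (G.neighborFinset x ∩ X).card

theorem inner_erase {X : Finset V} {x : V} (hx : x ∈ X) :
    inner G X = inner G (X.erase x) + 2 * (G.neighborFinset x ∩ X).card := by
  unfold inner
  rw [← add_sum_erase X _ hx]
  have h1 : ∀ v ∈ X.erase x, (G.neighborFinset v ∩ X).card =
      (G.neighborFinset v ∩ X.erase x).card + (if G.Adj x v then 1 else 0) := by
    intro v _
    have h2 : X = insert x (X.erase x) := (insert_erase hx).symm
    by_cases hxv : G.Adj x v
    · have h3 : G.neighborFinset v ∩ X = insert x (G.neighborFinset v ∩ X.erase x) := by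
        ext b
        simp only [mem_inter, mem_insert, mem_erase, SimpleGraph.mem_neighborFinset]
        constructor
        · rintro ⟨h4, h5⟩
          by_cases hb : b = x
          · exact Or.inl hb
          · exact Or.inr ⟨h4, hb, h5⟩
        · rintro (rfl | ⟨h4, _, h6⟩)
          · exact ⟨hxv.symm, hx⟩
          · exact ⟨h4, h6⟩
      rw [h3, card_insert_of_notMem (by simp), if_pos hxv]
    · have h3 : G.neighborFinset v ∩ X = G.neighborFinset v ∩ X.erase x := by
        ext b
        simp only [mem_inter, mem_erase, SimpleGraph.mem_neighborFinset]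
        constructor
        · rintro ⟨h4, h5⟩
          refine ⟨h4, ?_, h5⟩
          rintro rfl
          exact hxv h4.symm
        · rintro ⟨h4, _, h6⟩
          exact ⟨h4, h6⟩
      rw [h3, if_neg hxv, add_zero]
  rw [sum_congr rfl h1, sum_add_distrib]
  have h4 : ∑ v ∈ X.erase x, (if G.Adj x v then 1 else 0) = (G.neighborFinset x ∩ X).card := by
    rw [← card_filter]
    congr 1
    ext b
    simp only [mem_filter, mem_erase, mem_inter, SimpleGraph.mem_neighborFinset]
    constructor
    · rintro ⟨⟨_, h5⟩, h6⟩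
      exact ⟨h6, h5⟩
    · rintro ⟨h5, h6⟩
      exact ⟨⟨h5.ne.symm, h6⟩, h5⟩
  rw [h4]
  omega

/-- Mader: the number of edges inside a nonempty set of vertices of degree more than six is less
than the number of vertices. -/
theorem inner_le (h : SepGe 6 G)
    (hM : ∀ x y, G.Adj x y → ∃ A S B : Finset V, MSep G x y A S B) :
    ∀ (n : ℕ) (X : Finset V), X.card = n + 1 → (∀ x ∈ X, 7 ≤ G.degree x) →
      inner G X ≤ 2 * n := by
  intro n
  induction n with
  | zero =>
    intro X hX _
    obtain ⟨x, rfl⟩ := card_eq_one.1 hX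
    unfold inner
    simp
  | succ n ih =>
    intro X hX hdeg
    obtain ⟨x, hx, hle⟩ := exists_leaf h hM (card_pos.1 (by omega)) hdeg
    rw [inner_erase hx]
    have := ih (X.erase x) (by rw [card_erase_of_mem hx]; omega)
      (fun v hv => hdeg v (mem_of_mem_erase hv))
    omega

theorem no_triangle (h : SepGe 6 G)
    (hM : ∀ x y, G.Adj x y → ∃ A S B : Finset V, MSep G x y A S B) {p q w : V}
    (hp : 7 ≤ G.degree p) (hq : 7 ≤ G.degree q) (hw : 7 ≤ G.degree w)
    (hpq : G.Adj p q) (hpw : G.Adj p w) (hqw : G.Adj q w) : False := by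
  obtain ⟨x, hx, hle⟩ := exists_leaf h hM (X := {p, q, w}) ⟨p, by simp⟩ (by
    intro x hx
    simp only [mem_insert, mem_singleton] at hx
    rcases hx with rfl | rfl | rfl <;> assumption)
  rw [card_le_one] at hle
  simp only [mem_insert, mem_singleton] at hx
  have h1 : ∀ a, G.Adj x a → (a = p ∨ a = q ∨ a = w) →
      a ∈ G.neighborFinset x ∩ ({p, q, w} : Finset V) := by
    intro a ha ha'
    rw [mem_inter, SimpleGraph.mem_neighborFinset]
    exact ⟨ha, by simpa using ha'⟩
  rcases hx with rfl | rfl | rfl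
  · exact hqw.ne (hle q (h1 q hpq (by simp)) w (h1 w hpw (by simp)))
  · exact hpw.ne (hle p (h1 p hpq.symm (by simp)) w (h1 w hqw (by simp)))
  · exact hpq.ne (hle p (h1 p hpw.symm (by simp)) q (h1 q hqw.symm (by simp)))

end Pool.Agent.AlphaSix
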