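import Pool.Agent.AlphaSix.Forest2

/-!
# Small fragments at a vertex
-/

namespace Pool.Agent.AlphaSix

open Finset

set_option linter.unusedSectionVars false

universe u

variable {V : Type u} [Fintype V] [DecidableEq V] {G : SimpleGraph V}

/-- If every edge at `x` lies in a separator with six vertices, then `x` lies in such a separator
that cuts off at most two vertices. -/
theorem exists_small (h : SepGe 6 G) {x : V}
    (hx : ∀ w, G.Adj x w → ∃ A T B : Finset V, Six G A T B ∧ x ∈ T ∧ w ∈ T)
    (hdeg : ∃ w, G.Adj x w) :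
    ∃ A T B : Finset V, Six G A T B ∧ x ∈ T ∧ A.card ≤ 2 := by
  classical
  have hex : ∃ k : ℕ, ∃ A T B : Finset V, Six G A T B ∧ x ∈ T ∧ A.card = k := by
    obtain ⟨w, hw⟩ := hdeg
    obtain ⟨A, T, B, h1, h2, _⟩ := hx w hw
    exact ⟨A.card, A, T, B, h1, h2, rfl⟩
  obtain ⟨A, T, B, hs, hxT, hA⟩ := Nat.find_spec hex
  have hmin : ∀ A' T' B' : Finset V, Six G A' T' B' → x ∈ T' → A.card ≤ A'.card := by
    intro A' T' B' hs' hxT'
    rw [hA]
    exact Nat.find_min' hex ⟨A', T', B', hs', hxT', rfl⟩
  refine ⟨A, T, B, hs, hxT, ?_⟩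
  obtain ⟨w, hwA, hxw⟩ := hs.exists_nbr h hxT
  obtain ⟨C, S, D, hc, hxS, hwS⟩ := hx w hxw
  -- claim
  have claim : ∀ C D : Finset V, Six G C S D → A ∩ C = ∅ := by
    intro C D hc
    by_contra hne
    have hne' : (A ∩ C).Nonempty := nonempty_iff_ne_empty.2 hne
    have g1 := corner_ge h hs.sepn hc.sepn hne' hs.neB
    have cT := hc.sepn.card_split T
    have cS := hs.sepn.card_split S
    rw [hs.card] at cT
    rw [hc.card] at cS
    rw [inter_comm S A, inter_comm S T, inter_comm S B] at cS
    have cA := hc.sepn.card_split A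
    have cD := hs.sepn.card_split D
    rw [inter_comm D A, inter_comm D T, inter_comm D B] at cD
    have g2 : (A ∩ S).card + (T ∩ C).card + (T ∩ S).card ≠ 6 := by
      intro h6
      have h7 : Six G (A ∩ C) ((A ∩ S ∪ T ∩ C) ∪ T ∩ S)
          (univ \ (A ∩ C ∪ ((A ∩ S ∪ T ∩ C) ∪ T ∩ S))) := by
        refine ⟨corner_sepn hs.sepn hc.sepn, hne', ?_, ?_⟩
        · obtain ⟨b, hb⟩ := hs.neB
          refine ⟨b, ?_⟩
          simp only [mem_sdiff, mem_univ, mem_union, mem_inter, true_and]
          have h3 := hs.sepn.dAB b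
          have h4 := hs.sepn.dTB b
          tauto
        · rw [corner_card hs.sepn hc.sepn]
          exact h6
      have h8 := hmin _ _ _ h7 (by simp [hxT, hxS])
      have h9 : A ∩ C = A := eq_of_subset_of_card_le inter_subset_left h8
      have h10 : w ∈ A ∩ C := by rw [h9]; exact hwA
      exact hc.sepn.dAT w (mem_inter.1 h10).2 hwS
    have g3 : B ∩ D = ∅ := by
      by_contra hBD
      have g4 := corner_ge h hs.sepn.swap hc.sepn.swap (nonempty_iff_ne_empty.2 hBD) hs.neA
      omega
    rw [g3, card_empty] at cD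
    have g5 := hmin _ _ _ hc.swap hxS
    have g6 : 0 < (A ∩ C).card := card_pos.2 hne'
    omega
  have e1 := claim C D hc
  have e2 := claim D C hc.swap
  have cT := hc.sepn.card_split T
  have cS := hs.sepn.card_split S
  have cA := hc.sepn.card_split A
  rw [e1, e2, card_empty] at cA
  rw [hs.card] at cT
  rw [hc.card] at cS
  rw [inter_comm S A, inter_comm S T, inter_comm S B] at cS
  have claim2 : ∀ C D : Finset V, Six G C S D → A ∩ C = ∅ → A.card ≤ (T ∩ C).card := by
    intro C D hc e1
    by_cases hBC : (B ∩ C).Nonempty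
    · have g1 := corner_ge h hs.sepn.swap hc.sepn hBC hs.neA
      omega
    · have cC := hs.sepn.card_split C
      rw [inter_comm C A, inter_comm C T, inter_comm C B, e1,
        not_nonempty_iff_eq_empty.1 hBC, card_empty] at cC
      have g2 := hmin _ _ _ hc hxS
      omega
  have f1 := claim2 C D hc e1
  have f2 := claim2 D C hc.swap e2
  have f3 : 0 < (T ∩ S).card := card_pos.2 ⟨x, mem_inter.2 ⟨hxT, hxS⟩⟩
  omega

end Pool.Agent.AlphaSix
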