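import Pool.Agent.AlphaSix.Struct

/-!
# The recursion over separations
-/

namespace Pool.Agent.AlphaSix

open Finset

set_option linter.unusedSectionVars false

universe u

variable {V : Type u} [Fintype V] [DecidableEq V] {G : SimpleGraph V} [DecidableRel G.Adj]

/-- The weight of a vertex: `2 - d` for a vertex of degree six with `d` neighbours of degree
six (and `0` if `d ≥ 2`, or for the vertices of larger degree). -/
def wt (G : SimpleGraph V) [DecidableRel G.Adj] (v : V) : ℕ :=
  if v ∈ big G then 0 else 2 - (G.neighborFinset v \ big G).card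

theorem wt_le (v : V) : wt G v ≤ 2 := by
  unfold wt
  split_ifs <;> omega

theorem wt_big {v : V} (hv : v ∈ big G) : wt G v = 0 := by
  unfold wt
  rw [if_pos hv]

theorem wt_le_one {v w : V} (hw : w ∉ big G) (hvw : G.Adj v w) : wt G v ≤ 1 := by
  unfold wt
  have : 0 < (G.neighborFinset v \ big G).card := by
    apply card_pos.2
    exact ⟨w, by rw [mem_sdiff, SimpleGraph.mem_neighborFinset]; exact ⟨hvw, hw⟩⟩
  split_ifs <;> omega

/-- The vertices all of whose neighbours of large degree are in `X`. -/
def below (G : SimpleGraph V) [DecidableRel G.Adj] (X : Finset V) : Finset V :=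
  univ.filter (fun v => G.neighborFinset v ∩ big G ⊆ X)

theorem mem_below {X : Finset V} {v : V} :
    v ∈ below G X ↔ ∀ w, G.Adj v w → w ∈ big G → w ∈ X := by
  unfold below
  rw [mem_filter]
  constructor
  · rintro ⟨_, h⟩ w h1 h2
    apply h
    rw [mem_inter, SimpleGraph.mem_neighborFinset]
    exact ⟨h1, h2⟩
  · intro h
    refine ⟨mem_univ _, fun w hw => ?_⟩
    rw [mem_inter, SimpleGraph.mem_neighborFinset] at hw
    exact h w hw.1 hw.2

/-- The total weight below `X`. -/
def om (G : SimpleGraph V) [DecidableRel G.Adj] (X : Finset V) : ℕ :=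
  ∑ v ∈ below G X, wt G v

theorem sum_le_of_subset_union {s t r : Finset V} {f : V → ℕ} (h : r ⊆ s ∪ t) :
    ∑ v ∈ r, f v ≤ ∑ v ∈ s, f v + ∑ v ∈ t, f v := by
  have h1 : ∑ v ∈ r, f v ≤ ∑ v ∈ s ∪ t, f v := sum_le_sum_of_subset h
  have h2 := sum_union_inter (s₁ := s) (s₂ := t) (f := f)
  omega

/-- Splitting along a separation. -/
theorem om_split {A T B : Finset V} (hs : Sepn G A T B) (X : Finset V) :
    om G X ≤ om G (X ∩ (A ∪ T)) + om G (X ∩ (B ∪ T)) + ∑ v ∈ T \ big G, wt G v := by
  have h1 : below G X ⊆ (below G (X ∩ (A ∪ T)) ∪ below G (X ∩ (B ∪ T))) ∪ T := by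
    intro v hv
    rw [mem_below] at hv
    simp only [mem_union]
    rcases hs.cover v with h | h | h
    · left
      left
      rw [mem_below]
      intro w h2 h3
      rw [mem_inter, mem_union]
      exact ⟨hv w h2 h3, hs.nbr h h2⟩
    · exact Or.inr h
    · left
      right
      rw [mem_below]
      intro w h2 h3
      rw [mem_inter, mem_union]
      exact ⟨hv w h2 h3, hs.swap.nbr h h2⟩
  have h2 : ∑ v ∈ T, wt G v = ∑ v ∈ T \ big G, wt G v := by
    rw [← sum_sdiff (s₁ := T ∩ big G) (s₂ := T) inter_subset_left]
    have h3 : ∑ v ∈ T ∩ big G, wt G v = 0 := by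
      apply sum_eq_zero
      intro v hv
      exact wt_big (mem_inter.1 hv).2
    rw [h3, add_zero]
    congr 1
    ext v
    simp only [mem_sdiff, mem_inter]
    tauto
  have h3 : om G X ≤ _ := sum_le_of_subset_union (f := wt G) h1
  have h4 := sum_le_of_subset_union (f := wt G)
    (Subset.refl (below G (X ∩ (A ∪ T)) ∪ below G (X ∩ (B ∪ T))))
  unfold om at *
  omega

/-- The main bound for small sets of vertices of large degree. -/
theorem Ctx.om_le (c : Ctx G) : ∀ (m : ℕ) (X : Finset V), X.card = m → X ⊆ big G →
    om G X ≤ 10 * m - 44 := by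
  intro m
  induction m using Nat.strong_induction_on with
  | _ m ih =>
  intro X hXm hXb
  by_cases hex : ∃ x ∈ below G X, wt G x ≠ 0
  swap
  · push Not at hex
    unfold om
    rw [sum_eq_zero hex]
    omega
  obtain ⟨x, hxX, hwx⟩ := hex
  have hxb : x ∉ big G := by
    intro h
    exact hwx (wt_big h)
  have hxN : G.neighborFinset x ∩ big G ⊆ X := by
    unfold below at hxX
    exact (mem_filter.1 hxX).2
  have hcard := c.card_nbr hxb
  have hNle : (G.neighborFinset x ∩ big G).card ≤ m := by
    rw [← hXm]
    exact card_le_card hxN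
  have hwt : wt G x = 2 - (G.neighborFinset x \ big G).card := by
    unfold wt
    rw [if_neg hxb]
  have hh : (G.neighborFinset x \ big G).card = 0 ∨ (G.neighborFinset x \ big G).card = 1 := by
    omega
  rcases hh with hh | hh
  · -- all neighbours of `x` have large degree
    have hm6 : 6 ≤ m := by omega
    obtain ⟨p, q, T, B, hs, hpq, hxT, hpb, hxp, hcase⟩ :=
      c.iso_structure hxb (card_eq_zero.1 hh)
    have hpX : p ∈ X := (mem_below.1 hxX) p hxp hpb
    rcases hcase with ⟨hqb, hxq, hTb⟩ | ⟨hqb, hqT⟩
    · have hqX : q ∈ X := (mem_below.1 hxX) q hxq hqb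
      have h1 := om_split hs.sepn X
      have hT2 : ∑ v ∈ T \ big G, wt G v ≤ 12 := by
        have h2 : ∑ v ∈ T \ big G, wt G v ≤ ∑ v ∈ T \ big G, 2 := sum_le_sum (fun v _ => wt_le v)
        have h3 := card_le_card (sdiff_subset (s := T) (t := big G))
        rw [hs.card] at h3
        rw [sum_const, smul_eq_mul] at h2
        omega
      have hXT : ∀ v ∈ X, v ∉ T := fun v hv hvT => hTb v hvT (hXb hv)
      have hc1 : (X ∩ ({p, q} ∪ T)).card ≤ 2 := by
        have h2 : X ∩ ({p, q} ∪ T) ⊆ {p, q} := by
          intro v hv
          rw [mem_inter, mem_union] at hv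
          rcases hv.2 with h | h
          · exact h
          · exact absurd h (hXT v hv.1)
        exact (card_le_card h2).trans card_le_two
      have hc2 : (X ∩ (B ∪ T)).card ≤ m - 2 := by
        have h2 : X ∩ (B ∪ T) ⊆ (X.erase p).erase q := by
          intro v hv
          rw [mem_inter, mem_union] at hv
          rw [mem_erase, mem_erase]
          have h3 : v ∈ B := by
            rcases hv.2 with h | h
            · exact h
            · exact absurd h (hXT v hv.1)
          refine ⟨?_, ?_, hv.1⟩
          · rintro rfl
            exact hs.sepn.dAB v (by simp) h3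
          · rintro rfl
            exact hs.sepn.dAB v (by simp) h3
        have h3 := card_le_card h2
        rw [card_erase_of_mem (mem_erase.2 ⟨hpq.symm, hqX⟩), card_erase_of_mem hpX] at h3
        omega
      have i1 := ih _ (by omega) (X ∩ ({p, q} ∪ T)) rfl (inter_subset_left.trans hXb)
      have i2 := ih _ (by omega) (X ∩ (B ∪ T)) rfl (inter_subset_left.trans hXb)
      omega
    · have h1 : below G X ⊆ (insert q T) ∪ below G (X.erase p) := by
        intro v hv
        rw [mem_below] at hv
        rw [mem_union, mem_insert]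
        rcases hs.sepn.cover v with h | h | h
        · rw [mem_insert, mem_singleton] at h
          rcases h with h | h
          · right
            rw [mem_below]
            intro w h2 h3
            rw [mem_erase]
            refine ⟨?_, hv w h2 h3⟩
            rintro rfl
            exact h2.ne h
          · exact Or.inl (Or.inl h)
        · exact Or.inl (Or.inr h)
        · right
          rw [mem_below]
          intro w h2 h3
          rw [mem_erase]
          refine ⟨?_, hv w h2 h3⟩
          rintro rfl
          exact hs.sepn.noEdge w (by simp) v h h2.symm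
      have h2 : om G X ≤ _ := sum_le_of_subset_union (f := wt G) h1
      have hqT' : q ∉ T := hs.sepn.dAT q (by simp)
      have h3 : ∑ v ∈ insert q T, wt G v ≤ 9 := by
        rw [sum_insert hqT', ← add_sum_erase T _ hxT]
        have h4 : ∑ v ∈ T.erase x, wt G v ≤ ∑ v ∈ T.erase x, 1 := by
          apply sum_le_sum
          intro v hv
          rw [mem_erase] at hv
          exact wt_le_one hqb (hqT v hv.2 hv.1).symm
        rw [sum_const, smul_eq_mul, card_erase_of_mem hxT, hs.card] at h4
        have := wt_le (G := G) q
        have := wt_le (G := G) x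
        omega
      have i2 := ih (m - 1) (by omega) (X.erase p) (by rw [card_erase_of_mem hpX, hXm])
        ((erase_subset _ _).trans hXb)
      unfold om at i2
      omega
  · -- `x` has exactly one neighbour of degree six
    obtain ⟨y, hy⟩ := card_eq_one.1 hh
    have hyN : y ∈ G.neighborFinset x \ big G := by
      rw [hy]
      exact mem_singleton_self y
    rw [mem_sdiff, SimpleGraph.mem_neighborFinset] at hyN
    obtain ⟨hxy, hyb⟩ := hyN
    obtain ⟨A, T, B, hs, hxT, hyT⟩ := c.crit x y hxy
    have hbig : ∀ w, G.Adj x w → w ∉ T → w ∈ big G := by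
      intro w hw hwT
      by_contra hne
      have h1 : w ∈ G.neighborFinset x \ big G := by
        rw [mem_sdiff, SimpleGraph.mem_neighborFinset]
        exact ⟨hw, hne⟩
      rw [hy, mem_singleton] at h1
      rw [h1] at hwT
      exact hwT hyT
    obtain ⟨u, huA, hxu⟩ := hs.exists_nbr c.sepGe hxT
    obtain ⟨w, hwB, hxw⟩ := hs.exists_nbr' c.sepGe hxT
    have huX : u ∈ X := (mem_below.1 hxX) u hxu (hbig u hxu (hs.sepn.dAT u huA))
    have hwX : w ∈ X := (mem_below.1 hxX) w hxw (hbig w hxw (fun h => hs.sepn.dTB w h hwB))
    by_cases hm : m = 5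
    · -- every vertex of positive weight below `X` is in `T`
      subst hm
      have h1 : ∀ v ∈ below G X, wt G v ≤ if v ∈ T then 1 else 0 := by
        intro v hv
        by_cases h0 : wt G v = 0
        · rw [h0]; exact Nat.zero_le _
        have hvb : v ∉ big G := fun h => h0 (wt_big h)
        have hvN : G.neighborFinset v ∩ big G ⊆ X := (mem_filter.1 hv).2
        have h2 := c.card_nbr hvb
        have h3 := card_le_card hvN
        rw [hXm] at h3
        have h4 : wt G v = 2 - (G.neighborFinset v \ big G).card := by
          unfold wt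
          rw [if_neg hvb]
        have h5 : G.neighborFinset v ∩ big G = X := by
          apply eq_of_subset_of_card_le hvN
          rw [hXm]
          omega
        have h6 : G.Adj v u := by
          rw [← SimpleGraph.mem_neighborFinset]
          rw [← h5] at huX
          exact (mem_inter.1 huX).1
        have h7 : G.Adj v w := by
          rw [← SimpleGraph.mem_neighborFinset]
          rw [← h5] at hwX
          exact (mem_inter.1 hwX).1
        have h8 : v ∈ T := by
          rcases hs.sepn.cover v with h | h | h
          · exact absurd h7 (hs.sepn.noEdge v h w hwB)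
          · exact h
          · exact absurd h6.symm (hs.sepn.noEdge u huA v h)
        rw [if_pos h8]
        omega
      have h2 : om G X ≤ ∑ v ∈ below G X, (if v ∈ T then 1 else 0) := sum_le_sum h1
      rw [← card_filter] at h2
      have h3 : ((below G X).filter (fun v => v ∈ T)).card ≤ T.card := by
        apply card_le_card
        intro v hv
        exact (mem_filter.1 hv).2
      rw [hs.card] at h3
      omega
    have h1 := om_split hs.sepn X
    have hcX := hs.sepn.card_split X
    have hA0 : 0 < (X ∩ A).card := card_pos.2 ⟨u, mem_inter.2 ⟨huX, huA⟩⟩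
    have hB0 : 0 < (X ∩ B).card := card_pos.2 ⟨w, mem_inter.2 ⟨hwX, hwB⟩⟩
    have hcA : (X ∩ (A ∪ T)).card = (X ∩ A).card + (X ∩ T).card := by
      rw [inter_union_distrib_left, card_union_of_disjoint]
      rw [disjoint_left]
      intro v hv hv'
      exact hs.sepn.dAT v (mem_inter.1 hv).2 (mem_inter.1 hv').2
    have hcB : (X ∩ (B ∪ T)).card = (X ∩ B).card + (X ∩ T).card := by
      rw [inter_union_distrib_left, card_union_of_disjoint]
      rw [disjoint_left]
      intro v hv hv'
      exact hs.sepn.dTB v (mem_inter.1 hv').2 (mem_inter.1 hv).2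
    have hTcard : (X ∩ T).card + (T \ big G).card ≤ 6 := by
      have h2 := card_sdiff_add_card_inter T (big G)
      have h3 : (X ∩ T).card ≤ (T ∩ big G).card := by
        apply card_le_card
        intro v hv
        rw [mem_inter] at hv ⊢
        exact ⟨hv.2, hXb hv.1⟩
      rw [hs.card] at h2
      omega
    have hTsum : ∑ v ∈ T \ big G, wt G v + 2 ≤ 2 * (T \ big G).card ∧ 2 ≤ (T \ big G).card := by
      have hx' : x ∈ T \ big G := mem_sdiff.2 ⟨hxT, hxb⟩
      have hy' : y ∈ (T \ big G).erase x :=
        mem_erase.2 ⟨hxy.ne.symm, mem_sdiff.2 ⟨hyT, hyb⟩⟩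
      have h2 : ∑ v ∈ T \ big G, wt G v =
          wt G x + (wt G y + ∑ v ∈ ((T \ big G).erase x).erase y, wt G v) := by
        rw [add_sum_erase _ _ hy', add_sum_erase _ _ hx']
      have h3 : ∑ v ∈ ((T \ big G).erase x).erase y, wt G v ≤
          ∑ v ∈ ((T \ big G).erase x).erase y, 2 := sum_le_sum (fun v _ => wt_le v)
      have h4 : (((T \ big G).erase x).erase y).card = (T \ big G).card - 1 - 1 := by
        rw [card_erase_of_mem hy', card_erase_of_mem hx']
      rw [sum_const, smul_eq_mul, h4] at h3
      have h5 : 0 < (T \ big G).card - 1 := by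
        rw [← card_erase_of_mem hx']
        exact card_pos.2 ⟨y, hy'⟩
      have h6 := wt_le_one hyb hxy
      have h7 := wt_le_one hxb hxy.symm
      omega
    have i1 := ih _ (by omega) (X ∩ (A ∪ T)) rfl (inter_subset_left.trans hXb)
    have i2 := ih _ (by omega) (X ∩ (B ∪ T)) rfl (inter_subset_left.trans hXb)
    omega

end Pool.Agent.AlphaSix
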