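import Pool.Agent.AlphaSix.Defs

/-!
# Separations of finite graphs
-/

namespace Pool.Agent.AlphaSix

open Finset

set_option linter.unusedSectionVars false

universe u

variable {V : Type u} [Fintype V] [DecidableEq V] {G : SimpleGraph V}

/-- `A, T, B` is a partition of the vertex set without edges between `A` and `B`. -/
structure Sepn (G : SimpleGraph V) (A T B : Finset V) : Prop where
  cover : ∀ v, v ∈ A ∨ v ∈ T ∨ v ∈ B
  dAT : ∀ v, v ∈ A → v ∉ T
  dAB : ∀ v, v ∈ A → v ∉ B
  dTB : ∀ v, v ∈ T → v ∉ B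
  noEdge : ∀ a ∈ A, ∀ b ∈ B, ¬ G.Adj a b

namespace Sepn

variable {A T B : Finset V}

theorem swap (h : Sepn G A T B) : Sepn G B T A where
  cover v := by rcases h.cover v with h | h | h <;> tauto
  dAT v hv hT := h.dTB v hT hv
  dAB v hv hA := h.dAB v hA hv
  dTB v hT hA := h.dAT v hA hT
  noEdge a ha b hb hab := h.noEdge b hb a ha hab.symm

theorem card_split (h : Sepn G A T B) (X : Finset V) :
    X.card = (X ∩ A).card + (X ∩ T).card + (X ∩ B).card := by
  have h1 : X = (X ∩ A ∪ X ∩ T) ∪ X ∩ B := by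
    ext v
    simp only [mem_union, mem_inter]
    have := h.cover v
    tauto
  have d1 : Disjoint (X ∩ A) (X ∩ T) := by
    rw [Finset.disjoint_left]
    intro v hv hv'
    exact h.dAT v (mem_inter.1 hv).2 (mem_inter.1 hv').2
  have d2 : Disjoint (X ∩ A ∪ X ∩ T) (X ∩ B) := by
    rw [Finset.disjoint_left]
    intro v hv hv'
    rcases mem_union.1 hv with hv | hv
    · exact h.dAB v (mem_inter.1 hv).2 (mem_inter.1 hv').2
    · exact h.dTB v (mem_inter.1 hv).2 (mem_inter.1 hv').2
  conv_lhs => rw [h1]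
  rw [card_union_of_disjoint d2, card_union_of_disjoint d1]

/-- A neighbour of a vertex of `A` lies in `A ∪ T`. -/
theorem nbr (h : Sepn G A T B) {a b : V} (ha : a ∈ A) (hab : G.Adj a b) : b ∈ A ∨ b ∈ T := by
  rcases h.cover b with hb | hb | hb
  · exact Or.inl hb
  · exact Or.inr hb
  · exact absurd hab (h.noEdge a ha b hb)

end Sepn

/-- Every separation with both sides nonempty has at least `k` vertices in the middle. -/
def SepGe (k : ℕ) (G : SimpleGraph V) : Prop :=
  ∀ A T B : Finset V, Sepn G A T B → A.Nonempty → B.Nonempty → k ≤ T.card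

theorem KConnected.sepGe {k : ℕ} (h : KConnected k G) : SepGe k G := by
  intro A T B hs hA hB
  by_contra hlt
  push Not at hlt
  have hc := h.2 T hlt
  obtain ⟨a, ha⟩ := hA
  obtain ⟨b, hb⟩ := hB
  have haT : a ∈ ((T : Set V)ᶜ) := fun h' => hs.dAT a ha h'
  have hbT : b ∈ ((T : Set V)ᶜ) := fun h' => hs.dTB b h' hb
  have hr := hc.preconnected ⟨a, haT⟩ ⟨b, hbT⟩
  have key : ∀ x y : ((T : Set V)ᶜ : Set V), (G.induce ((T : Set V)ᶜ)).Reachable x y →
      x.1 ∈ A → y.1 ∈ A := by
    intro x y hxy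
    obtain ⟨w⟩ := hxy
    induction w with
    | nil => exact id
    | cons hadj _ ih =>
      intro hx
      apply ih
      rename_i u v _ _
      have hadj' : G.Adj u.1 v.1 := hadj
      rcases hs.nbr hx hadj' with h1 | h1
      · exact h1
      · exact absurd h1 v.2
  exact hs.dAB b (key _ _ hr ha) hb

/-- If `G` is not `k`-connected although it has more than `k` vertices, there is a separation
with fewer than `k` vertices in the middle. -/
theorem exists_sepn_of_not_kconnected {k : ℕ} (hk : k < Fintype.card V)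
    (h : ¬ KConnected k G) :
    ∃ A T B : Finset V, Sepn G A T B ∧ A.Nonempty ∧ B.Nonempty ∧ T.card < k := by
  classical
  have h1 : ∃ S : Finset V, S.card < k ∧ ¬ (G.induce ((S : Set V)ᶜ)).Connected := by
    by_contra hcon
    push Not at hcon
    exact h ⟨by rw [Nat.card_eq_fintype_card]; exact hk, hcon⟩
  obtain ⟨S, hS, hcon⟩ := h1
  have hne : Nonempty ((S : Set V)ᶜ : Set V) := by
    obtain ⟨v, hv⟩ : ∃ v, v ∉ S := by
      by_contra hall
      push Not at hall
      have : S = univ := Finset.eq_univ_iff_forall.2 hall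
      rw [this, card_univ] at hS
      omega
    exact ⟨⟨v, by simpa using hv⟩⟩
  have hnp : ¬ (G.induce ((S : Set V)ᶜ)).Preconnected := by
    intro hp
    exact hcon ⟨hp⟩
  unfold SimpleGraph.Preconnected at hnp
  push Not at hnp
  obtain ⟨a, b, hab⟩ := hnp
  refine ⟨univ.filter (fun v => ∃ h : v ∈ ((S : Set V)ᶜ),
      (G.induce ((S : Set V)ᶜ)).Reachable a ⟨v, h⟩), S,
    univ.filter (fun v => ∃ h : v ∈ ((S : Set V)ᶜ),
      ¬ (G.induce ((S : Set V)ᶜ)).Reachable a ⟨v, h⟩), ?_, ?_, ?_, hS⟩
  · constructor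
    · intro v
      simp only [mem_filter, mem_univ, true_and]
      by_cases hv : v ∈ S
      · exact Or.inr (Or.inl hv)
      · have hv' : v ∈ ((S : Set V)ᶜ) := by simpa using hv
        by_cases hr : (G.induce ((S : Set V)ᶜ)).Reachable a ⟨v, hv'⟩
        · exact Or.inl ⟨hv', hr⟩
        · exact Or.inr (Or.inr ⟨hv', hr⟩)
    · intro v hv hS'
      simp only [mem_filter, mem_univ, true_and] at hv
      obtain ⟨h1, _⟩ := hv
      exact h1 hS'
    · intro v hv hv'
      simp only [mem_filter, mem_univ, true_and] at hv hv'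
      obtain ⟨h1, h2⟩ := hv
      obtain ⟨h3, h4⟩ := hv'
      exact h4 h2
    · intro v hv hv'
      simp only [mem_filter, mem_univ, true_and] at hv'
      obtain ⟨h1, _⟩ := hv'
      exact h1 hv
    · intro x hx y hy hxy
      simp only [mem_filter, mem_univ, true_and] at hx hy
      obtain ⟨h1, h2⟩ := hx
      obtain ⟨h3, h4⟩ := hy
      apply h4
      have hadj : (G.induce ((S : Set V)ᶜ)).Adj ⟨x, h1⟩ ⟨y, h3⟩ := hxy
      exact h2.trans hadj.reachable
  · refine ⟨a.1, ?_⟩
    simp only [mem_filter, mem_univ, true_and]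
    exact ⟨a.2, SimpleGraph.Reachable.refl _⟩
  · refine ⟨b.1, ?_⟩
    simp only [mem_filter, mem_univ, true_and]
    exact ⟨b.2, hab⟩

/-- The two ways to look at `k`-connectedness. -/
theorem kconnected_of_sepGe {k : ℕ} (hk : k < Fintype.card V) (h : SepGe k G) :
    KConnected k G := by
  by_contra hcon
  obtain ⟨A, T, B, hs, hA, hB, hT⟩ := exists_sepn_of_not_kconnected hk hcon
  have := h A T B hs hA hB
  omega

end Pool.Agent.AlphaSix
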