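import Pool.Agent.AlphaSix.Frag

/-!
# The structure at a vertex of degree six
-/

namespace Pool.Agent.AlphaSix

open Finset

set_option linter.unusedSectionVars false

universe u

variable {V : Type u} [Fintype V] [DecidableEq V]

/-- The standing assumptions. -/
structure Ctx (G : SimpleGraph V) : Prop where
  sepGe : SepGe 6 G
  card : 8 ≤ Fintype.card V
  crit : ∀ v w, G.Adj v w → ∃ A T B : Finset V, Six G A T B ∧ v ∈ T ∧ w ∈ T
  msep : ∀ x y, G.Adj x y → ∃ A S B : Finset V, MSep G x y A S B

variable {G : SimpleGraph V} [DecidableRel G.Adj]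

/-- The vertices of degree at least seven. -/
def big (G : SimpleGraph V) [DecidableRel G.Adj] : Finset V := univ.filter (fun v => 7 ≤ G.degree v)

theorem mem_big {v : V} : v ∈ big G ↔ 7 ≤ G.degree v := by simp [big]

theorem Ctx.deg_ge (c : Ctx G) (v : V) : 6 ≤ G.degree v := by
  by_contra hlt
  push Not at hlt
  rw [← SimpleGraph.card_neighborFinset_eq_degree] at hlt
  have h1 := c.sepGe.le_card (P := {v}) (M := G.neighborFinset v) ⟨v, by simp⟩
    (by
      by_contra hcon
      push Not at hcon
      have h2 : (univ : Finset V) ⊆ insert v (G.neighborFinset v) := by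
        intro u _
        rw [mem_insert]
        by_cases hu : u = v
        · exact Or.inl hu
        · exact Or.inr (hcon u (by simpa using hu))
      have h3 := (card_le_card h2).trans (card_insert_le _ _)
      rw [card_univ] at h3
      have := c.card
      omega)
    (by
      intro a ha b hab
      rw [mem_singleton] at ha
      subst ha
      right
      rwa [SimpleGraph.mem_neighborFinset])
  omega

theorem Ctx.deg_eq (c : Ctx G) {v : V} (hv : v ∉ big G) : G.degree v = 6 := by
  have h1 := c.deg_ge v
  rw [mem_big] at hv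
  omega

theorem Ctx.card_nbr (c : Ctx G) {v : V} (hv : v ∉ big G) :
    (G.neighborFinset v \ big G).card + (G.neighborFinset v ∩ big G).card = 6 := by
  have h1 := card_sdiff_add_card_inter (G.neighborFinset v) (big G)
  rw [h1, SimpleGraph.card_neighborFinset_eq_degree]
  exact c.deg_eq hv

/-- The fragment at a vertex all of whose neighbours have degree at least seven. -/
theorem Ctx.iso_structure (c : Ctx G) {x : V} (hx : x ∉ big G)
    (hiso : G.neighborFinset x \ big G = ∅) :
    ∃ (p q : V) (T B : Finset V), Six G {p, q} T B ∧ p ≠ q ∧ x ∈ T ∧ p ∈ big G ∧ G.Adj x p ∧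
      ((q ∈ big G ∧ G.Adj x q ∧ ∀ z ∈ T, z ∉ big G) ∨
        (q ∉ big G ∧ ∀ z ∈ T, z ≠ x → G.Adj q z)) := by
  have hnb : ∀ w, G.Adj x w → w ∈ big G := by
    intro w hw
    by_contra hne
    have : w ∈ G.neighborFinset x \ big G := by
      rw [mem_sdiff, SimpleGraph.mem_neighborFinset]
      exact ⟨hw, hne⟩
    rw [hiso] at this
    exact notMem_empty _ this
  have hdeg : ∃ w, G.Adj x w := by
    have h1 := c.deg_ge x
    rw [← SimpleGraph.card_neighborFinset_eq_degree] at h1
    obtain ⟨w, hw⟩ := card_pos.1 (show 0 < (G.neighborFinset x).card by omega)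
    exact ⟨w, by rwa [SimpleGraph.mem_neighborFinset] at hw⟩
  obtain ⟨A, T, B, hs, hxT, hA⟩ := exists_small c.sepGe (fun w hw => c.crit x w hw) hdeg
  obtain ⟨p, hpA, hxp⟩ := hs.exists_nbr c.sepGe hxT
  have hpb := hnb p hxp
  have hA1 : A.card ≠ 1 := by
    intro h1
    obtain ⟨y, rfl⟩ := card_eq_one.1 h1
    rw [mem_singleton] at hpA
    subst hpA
    have h2 : G.neighborFinset p ⊆ T := by
      intro b hb
      rw [SimpleGraph.mem_neighborFinset] at hb
      rcases hs.sepn.nbr (mem_singleton_self p) hb with h3 | h3
      · rw [mem_singleton] at h3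
        exact absurd h3.symm hb.ne
      · exact h3
    have h3 := card_le_card h2
    rw [SimpleGraph.card_neighborFinset_eq_degree, hs.card] at h3
    rw [mem_big] at hpb
    omega
  have hA2 : A.card = 2 := by
    have := card_pos.2 hs.neA
    omega
  obtain ⟨q, hq⟩ : ∃ q, A.erase p = {q} := by
    apply card_eq_one.1
    rw [card_erase_of_mem hpA, hA2]
  have hqp : q ≠ p := by
    have : q ∈ A.erase p := by rw [hq]; exact mem_singleton_self q
    exact (mem_erase.1 this).1
  have hApq : A = {p, q} := by
    rw [← insert_erase hpA, hq]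
  subst hApq
  have hnp : ∀ r s : V, Six G {r, s} T B → r ∈ big G →
      ∀ b, b = s ∨ b ∈ T → G.Adj r b := by
    intro r s hs hr b hb
    have h1 : G.neighborFinset r ⊆ insert s T := by
      intro b hb
      rw [SimpleGraph.mem_neighborFinset] at hb
      rcases hs.sepn.nbr (mem_insert_self r _) hb with h3 | h3
      · rw [mem_insert, mem_singleton] at h3
        rcases h3 with h3 | h3
        · exact absurd h3.symm hb.ne
        · rw [h3]; exact mem_insert_self _ _
      · exact mem_insert_of_mem h3
    have h2 : G.neighborFinset r = insert s T := by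
      apply eq_of_subset_of_card_le h1
      rw [SimpleGraph.card_neighborFinset_eq_degree]
      have := card_insert_le s T
      rw [hs.card] at this
      rw [mem_big] at hr
      omega
    have h3 : b ∈ G.neighborFinset r := by
      rw [h2, mem_insert]
      exact hb
    rwa [SimpleGraph.mem_neighborFinset] at h3
  refine ⟨p, q, T, B, hs, hqp.symm, hxT, hpb, hxp, ?_⟩
  have hs' : Six G {q, p} T B := by
    rw [pair_comm]
    exact hs
  by_cases hqb : q ∈ big G
  · left
    refine ⟨hqb, (hnp q p hs' hqb x (Or.inr hxT)).symm, fun z hz hzb => ?_⟩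
    exact no_triangle c.sepGe c.msep (mem_big.1 hpb) (mem_big.1 hqb) (mem_big.1 hzb)
      (hnp p q hs hpb q (Or.inl rfl)) (hnp p q hs hpb z (Or.inr hz))
      (hnp q p hs' hqb z (Or.inr hz))
  · right
    refine ⟨hqb, fun z hz hzx => ?_⟩
    have h1 : G.neighborFinset q ⊆ insert p (T.erase x) := by
      intro b hb
      rw [SimpleGraph.mem_neighborFinset] at hb
      have hbx : b ≠ x := by
        rintro rfl
        exact hqb (hnb q hb.symm)
      rcases hs'.sepn.nbr (mem_insert_self q _) hb with h3 | h3
      · rw [mem_insert, mem_singleton] at h3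
        rcases h3 with h3 | h3
        · exact absurd h3.symm hb.ne
        · rw [h3]; exact mem_insert_self _ _
      · exact mem_insert_of_mem (mem_erase.2 ⟨hbx, h3⟩)
    have h2 : G.neighborFinset q = insert p (T.erase x) := by
      apply eq_of_subset_of_card_le h1
      rw [SimpleGraph.card_neighborFinset_eq_degree]
      have h4 := card_insert_le p (T.erase x)
      rw [card_erase_of_mem hxT, hs.card] at h4
      have := c.deg_ge q
      omega
    have h3 : z ∈ G.neighborFinset q := by
      rw [h2, mem_insert, mem_erase]
      exact Or.inr ⟨hzx, hz⟩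
    rwa [SimpleGraph.mem_neighborFinset] at h3

end Pool.Agent.AlphaSix
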