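import Pool.Agent.AlphaSix.Charge

/-!
# The upper bound for the average degree
-/

namespace Pool.Agent.AlphaSix

open Finset

set_option linter.unusedSectionVars false

universe u

section

variable {V : Type u} [Fintype V] [DecidableEq V] {G : SimpleGraph V} [DecidableRel G.Adj]

theorem Ctx.om_big (c : Ctx G) : om G (big G) ≤ 8 * (big G).card + 2 := by
  by_cases h : (big G).card ≤ 23
  · have := c.om_le _ (big G) rfl (Subset.refl _)
    omega
  · push Not at h
    have h1 := c.charge (by omega)
    obtain ⟨k, hk⟩ : ∃ k, (big G).card = 24 + k := ⟨(big G).card - 24, by omega⟩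
    rw [hk] at h1 ⊢
    by_contra hcon
    push Not at hcon
    have e1 : 2 * (24 + k) - 11 = 37 + 2 * k := by omega
    have e2 : (24 + k) * (24 + k) - (24 + k) = 552 + 47 * k + k * k := by
      have : (24 + k) * (24 + k) = 552 + 47 * k + k * k + (24 + k) := by ring
      rw [this]
      omega
    rw [e1, e2] at h1
    have h2 : (37 + 2 * k) * (195 + 8 * k) ≤ (37 + 2 * k) * om G (big G) :=
      Nat.mul_le_mul_left _ (by omega)
    nlinarith [h1, h2, Nat.zero_le k]

theorem Ctx.sum_degree (c : Ctx G) : ∑ v, G.degree v ≤ 10 * Fintype.card V := by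
  have h1 : ∑ v, G.degree v = ∑ v ∈ big G, G.degree v + ∑ v ∈ (big G)ᶜ, G.degree v :=
    (sum_add_sum_compl _ _).symm
  have h2 : ∑ v ∈ (big G)ᶜ, G.degree v = 6 * ((big G)ᶜ).card := by
    rw [sum_congr rfl (fun v hv => c.deg_eq (mem_compl.1 hv)), sum_const, smul_eq_mul, mul_comm]
  have h3 : ∑ v ∈ big G, G.degree v =
      ∑ v ∈ big G, (G.neighborFinset v \ big G).card + inner G (big G) := by
    unfold inner
    rw [← sum_add_distrib]
    apply sum_congr rfl
    intro v _
    rw [card_sdiff_add_card_inter, SimpleGraph.card_neighborFinset_eq_degree]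
  have h4 : ∑ v ∈ big G, (G.neighborFinset v \ big G).card =
      ∑ v ∈ (big G)ᶜ, (G.neighborFinset v ∩ big G).card := by
    have e1 : ∀ v, (G.neighborFinset v \ big G).card =
        ∑ w ∈ (big G)ᶜ, if G.Adj v w then 1 else 0 := by
      intro v
      rw [← card_filter]
      congr 1
      ext w
      simp only [mem_sdiff, SimpleGraph.mem_neighborFinset, mem_filter, mem_compl]
      tauto
    have e2 : ∀ v, (G.neighborFinset v ∩ big G).card =
        ∑ w ∈ big G, if G.Adj w v then 1 else 0 := by
      intro v
      rw [← card_filter]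
      congr 1
      ext w
      simp only [mem_inter, SimpleGraph.mem_neighborFinset, mem_filter]
      constructor
      · rintro ⟨h5, h6⟩
        exact ⟨h6, h5.symm⟩
      · rintro ⟨h5, h6⟩
        exact ⟨h6.symm, h5⟩
    simp only [e1, e2]
    exact sum_comm
  have h5 : ∑ v ∈ (big G)ᶜ, (G.neighborFinset v ∩ big G).card ≤
      4 * ((big G)ᶜ).card + om G (big G) := by
    have e1 : ∑ v ∈ (big G)ᶜ, (G.neighborFinset v ∩ big G).card ≤
        ∑ v ∈ (big G)ᶜ, (4 + wt G v) := by
      apply sum_le_sum
      intro v hv
      have hv' := mem_compl.1 hv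
      have e2 := c.card_nbr hv'
      have e3 : wt G v = 2 - (G.neighborFinset v \ big G).card := by
        unfold wt
        rw [if_neg hv']
      omega
    rw [sum_add_distrib, sum_const, smul_eq_mul] at e1
    have e4 : ∑ v ∈ (big G)ᶜ, wt G v ≤ om G (big G) := by
      unfold om
      apply sum_le_sum_of_subset
      intro v _
      rw [mem_below]
      intro w _ hw
      exact hw
    omega
  have h6 := c.om_big
  have h7 : ((big G)ᶜ).card + (big G).card = Fintype.card V := card_compl_add_card _
  by_cases hb : (big G).card = 0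
  · have h8 : big G = ∅ := card_eq_zero.1 hb
    have h9 : ∑ v ∈ big G, G.degree v = 0 := by
      rw [h8, sum_empty]
    omega
  · obtain ⟨n, hn⟩ : ∃ n, (big G).card = n + 1 := ⟨(big G).card - 1, by omega⟩
    have h8 := inner_le c.sepGe c.msep n (big G) hn (fun x hx => mem_big.1 hx)
    omega

end

/-- The average degree is at most ten. -/
theorem avgDegree_le_ten {V : Type u} {G : SimpleGraph V} (h : MinContractionCritical 6 G) :
    avgDegree G ≤ 10 := by
  classical
  have hcard : 6 < Nat.card V := h.1.1.1
  have : Finite V := Nat.finite_of_card_ne_zero (by omega)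
  have : Fintype V := Fintype.ofFinite V
  rw [Nat.card_eq_fintype_card] at hcard
  have key : ∑ v, G.degree v ≤ 10 * Fintype.card V := by
    by_cases h8 : 8 ≤ Fintype.card V
    · have c : Ctx G :=
        ⟨h.1.1.sepGe, h8, fun v w hvw => h.1.exists_six h8 hvw,
          fun x y hxy => exists_msep h.1.1.sepGe h8 hxy (h.not_kconnected_delete hxy)⟩
      exact c.sum_degree
    · have h1 : ∀ v, G.degree v ≤ 10 := by
        intro v
        have := G.degree_lt_card_verts v
        omega
      calc ∑ v, G.degree v ≤ ∑ _v : V, 10 := sum_le_sum (fun v _ => h1 v)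
        _ = 10 * Fintype.card V := by
          rw [sum_const, card_univ, smul_eq_mul, mul_comm]
  rw [SimpleGraph.sum_degrees_eq_twice_card_edges] at key
  have h2 : G.edgeSet.ncard = G.edgeFinset.card := by
    rw [← SimpleGraph.coe_edgeFinset, Set.ncard_coe_finset]
  unfold avgDegree
  rw [h2, Nat.card_eq_fintype_card, div_le_iff₀ (by
    have : 0 < Fintype.card V := by omega
    exact_mod_cast this)]
  exact_mod_cast key

end Pool.Agent.AlphaSix
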